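import Pool.Agent.Helper66.TF.Main

/-!
# The kernel sum lemma
-/

namespace Pool.Agent.Helper66.TF

open Complex MeasureTheory intervalIntegral Set Filter Topology
open Pool.Agent.Helper9.TB Pool.Agent.Helper9.TF

/-- the normalised sum against the integral -/
lemma sum_int {r : ℝ} (hr : 0 < r) (hr1 : r ≤ 1 / 20) {T : ℂ → ℂ} {τ : ℂ}
    (hT : DifferentiableOn ℂ T (Metric.ball (1 / 4) r)) (hS : LipS (1 / 4) r 4 1 (deriv T))
    (hτ : ‖τ - 1 / 4‖ ≤ r / 20) (h0 : deriv T τ = 0) {N : ℕ} (hN : 100 / r ≤ N) :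
    ∃ s0 s1 : ℝ, s0 ≤ -(2 / 5 * r) ∧ 2 / 5 * r ≤ s1 ∧ -(3 / 5 * r) ≤ s0 ∧ s1 ≤ 3 / 5 * r ∧
      ∀ B : ℂ → ℂ, DifferentiableOn ℂ B (Metric.ball (1 / 4) r) →
        (∀ z ∈ Metric.ball (1 / 4 : ℂ) r, ‖B z‖ ≤ 1) →
        ‖KS N r (fun z => T z - T τ) B -
          N * ∫ s in s0..s1, exp (N * (T (τ + s) - T τ)) * B (τ + s)‖ ≤
          5 * N * Real.exp (-(N * r ^ 2 / 2)) := by
  have hpi := Real.pi_gt_three
  have hpi2 := Real.pi_lt_d2
  have hN0 : (0 : ℝ) < N := lt_of_lt_of_le (by positivity) hN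
  have hNn : 0 < N := by exact_mod_cast hN0
  have hNr : 100 ≤ N * r := by rwa [div_le_iff₀ hr] at hN
  have h2N : 1 / (2 * (N : ℝ)) ≤ r / 200 := by
    rw [div_le_div_iff₀ (by positivity) (by norm_num)]
    linarith
  have h2N0 : 0 < 1 / (2 * (N : ℝ)) := by positivity
  obtain ⟨m0, n, hnN, hsum, a1, a2, a3, a4⟩ := Wd_sum hr hr1 hNn
  set A := ((m0 : ℝ) - 1 / 2) / N with hA
  set A' := ((m0 : ℝ) + n - 1 / 2) / N with hA'
  have hre : |τ.re - 1 / 4| ≤ r / 20 := by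
    have h1 := abs_re_le_norm (τ - 1 / 4)
    have h2 : (τ - 1 / 4).re = τ.re - 1 / 4 := by
      rw [sub_re]; norm_num
    rw [h2] at h1
    exact h1.trans hτ
  have him : |τ.im| ≤ r / 20 := by
    have h1 := abs_im_le_norm (τ - 1 / 4)
    have h2 : (τ - 1 / 4).im = τ.im := by
      rw [sub_im]; norm_num
    rw [h2] at h1
    exact h1.trans hτ
  have hre1 := (abs_le.1 hre).1
  have hre2 := (abs_le.1 hre).2
  have him1 := (abs_le.1 him).1
  have him2 := (abs_le.1 him).2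
  have hτb : τ ∈ Metric.ball (1 / 4 : ℂ) r := by
    rw [Metric.mem_ball, dist_eq_norm]; linarith
  have inball : ∀ z : ℂ, A ≤ z.re → z.re ≤ A' → |z.im| ≤ r / 4 →
      z ∈ Metric.ball (1 / 4 : ℂ) r := by
    intro z h1 h2 h3
    rw [Metric.mem_ball, dist_eq_norm]
    have h4 : ‖z - 1 / 4‖ ≤ |(z - 1 / 4).re| + |(z - 1 / 4).im| := norm_le_abs_re_add_abs_im _
    have h5 : (z - 1 / 4).re = z.re - 1 / 4 := by rw [sub_re]; norm_num
    have h6 : (z - 1 / 4).im = z.im := by rw [sub_im]; norm_num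
    rw [h5, h6] at h4
    have h7 : |z.re - 1 / 4| ≤ r / 2 + r / 200 := by
      rw [abs_le]; constructor <;> linarith
    linarith
  refine ⟨A - τ.re, A' - τ.re, by linarith, by linarith, by linarith, by linarith, ?_⟩
  intro B hB hB1
  set F : ℂ → ℂ := fun z => exp (N * (T z - T τ)) * B z with hF
  have hFd : DifferentiableOn ℂ F (Metric.ball (1 / 4) r) := by
    apply DifferentiableOn.mul _ hB
    apply DifferentiableOn.cexp
    exact (hT.sub (differentiableOn_const _)).const_mul _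
  have hFn : ∀ z ∈ Metric.ball (1 / 4 : ℂ) r, ‖F z‖ ≤
      Real.exp (N * (-(4 * Real.pi - 1) * (z.re - τ.re) ^ 2 +
        (4 * Real.pi + 1) * (z.im - τ.im) ^ 2)) := by
    intro z hz
    have h1 := re_le hT hS hτb h0 hz
    have h2 := hB1 z hz
    simp only [hF]
    rw [norm_mul, norm_exp, show ((N : ℂ) * (T z - T τ)) = ((N : ℝ) : ℂ) * (T z - T τ) by
      push_cast; rfl, re_ofReal_mul]
    calc Real.exp (N * (T z - T τ).re) * ‖B z‖ ≤ Real.exp (N * (T z - T τ).re) * 1 := by gcongr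
      _ = Real.exp (N * (T z - T τ).re) := mul_one _
      _ ≤ _ := by
        apply Real.exp_le_exp.2
        gcongr
  have hmain := window_scaled Metric.isOpen_ball hFd hNn (h := r / 4) (v := τ.im)
    (Mh := Real.exp (N * (5 / 4 * r ^ 2))) (Mv := Real.exp (-(N * r ^ 2 / 2))) (by positivity)
    (by
      have h1 : Real.exp (-(2 * Real.pi * (N * (r / 4)))) ≤ Real.exp (-1) := by
        apply Real.exp_le_exp.2
        nlinarith
      have h2 : Real.exp (-1) ≤ 1 / 2 := by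
        rw [Real.exp_neg, ← one_div]
        apply one_div_le_one_div_of_le (by norm_num)
        have := Real.add_one_le_exp (1 : ℝ)
        linarith
      exact h1.trans h2)
    (by linarith) (by linarith) m0 n inball
    (by
      intro z h1 h2 h3
      refine (hFn z (inball z h1 h2 h3.le)).trans (Real.exp_le_exp.2 ?_)
      apply mul_le_mul_of_nonneg_left _ hN0.le
      have h4 : (z.im - τ.im) ^ 2 ≤ (3 / 10 * r) ^ 2 := by
        rw [sq_le_sq, abs_of_pos (by positivity : 0 < 3 / 10 * r)]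
        have := abs_sub z.im τ.im
        rw [h3] at this
        linarith
      have h5 := sq_nonneg (z.re - τ.re)
      have h6 : (4 * Real.pi + 1) * (z.im - τ.im) ^ 2 ≤ (4 * Real.pi + 1) * (3 / 10 * r) ^ 2 := by
        gcongr
      have h7 : (4 * Real.pi + 1) * (3 / 10 * r) ^ 2 ≤ 5 / 4 * r ^ 2 := by
        nlinarith [sq_nonneg r]
      have h8 : 0 ≤ (4 * Real.pi - 1) * (z.re - τ.re) ^ 2 := mul_nonneg (by linarith) h5
      linarith)
    (by
      intro z h1 h3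
      have hz : z ∈ Metric.ball (1 / 4 : ℂ) r := by
        apply inball z _ _ h3
        · rcases h1 with h | h
          · rw [h]
          · rw [h]; linarith
        · rcases h1 with h | h
          · rw [h]; linarith
          · rw [h]
      refine (hFn z hz).trans (Real.exp_le_exp.2 ?_)
      have h4 : (z.im - τ.im) ^ 2 ≤ (3 / 10 * r) ^ 2 := by
        rw [sq_le_sq, abs_of_pos (by positivity : 0 < 3 / 10 * r)]
        have := abs_sub z.im τ.im
        linarith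
      have h5 : (11 / 25 * r) ^ 2 ≤ (z.re - τ.re) ^ 2 := by
        rw [sq_le_sq, abs_of_pos (by positivity : 0 < 11 / 25 * r)]
        rcases h1 with h | h
        · rw [h, abs_of_neg (by linarith)]; linarith
        · rw [h, abs_of_pos (by linarith)]; linarith
      have h6 : (4 * Real.pi + 1) * (z.im - τ.im) ^ 2 ≤ (4 * Real.pi + 1) * (3 / 10 * r) ^ 2 := by
        gcongr
      have h7 : (4 * Real.pi - 1) * (11 / 25 * r) ^ 2 ≤ (4 * Real.pi - 1) * (z.re - τ.re) ^ 2 := by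
        apply mul_le_mul_of_nonneg_left h5; linarith
      have h8 : -(4 * Real.pi - 1) * (z.re - τ.re) ^ 2 + (4 * Real.pi + 1) * (z.im - τ.im) ^ 2 ≤
          -(r ^ 2 / 2) := by
        nlinarith [sq_nonneg r]
      calc (N : ℝ) * (-(4 * Real.pi - 1) * (z.re - τ.re) ^ 2 +
          (4 * Real.pi + 1) * (z.im - τ.im) ^ 2) ≤ N * (-(r ^ 2 / 2)) := by gcongr
        _ = _ := by ring)
  -- identification of the two sides
  have e1 : KS N r (fun z => T z - T τ) B = ∑ j ∈ Finset.range n, F ((m0 + j : ℕ) / N) := by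
    unfold KS
    rw [hsum]
  have e2 : (∫ x in A..A', F (x + τ.im * I)) =
      ∫ s in (A - τ.re)..(A' - τ.re), exp (N * (T (τ + s) - T τ)) * B (τ + s) := by
    have h1 := intervalIntegral.integral_comp_add_right (a := A - τ.re) (b := A' - τ.re)
      (fun x : ℝ => F (x + τ.im * I)) τ.re
    rw [sub_add_cancel, sub_add_cancel] at h1
    rw [← h1]
    apply intervalIntegral.integral_congr
    intro s _
    simp only [hF]
    have : (((s + τ.re : ℝ) : ℂ) + τ.im * I) = τ + s := by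
      conv_rhs => rw [← re_add_im τ]
      push_cast; ring
    rw [this]
  rw [e1, ← e2]
  refine hmain.trans ?_
  have hn : (n : ℝ) ≤ N := by exact_mod_cast hnN
  have h9 : Real.exp (-(2 * Real.pi * (N * (r / 4)))) * Real.exp (N * (5 / 4 * r ^ 2)) ≤
      Real.exp (-(N * r ^ 2 / 2)) := by
    rw [← Real.exp_add]
    apply Real.exp_le_exp.2
    have h10 : r ^ 2 ≤ r / 20 := by nlinarith
    have h11 : (N : ℝ) * r ^ 2 ≤ N * (r / 20) := by gcongr
    have h12 : 0 < N * r := by positivity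
    nlinarith
  have hexp := Real.exp_pos (-(N * r ^ 2 / 2))
  calc (n : ℝ) * (4 * Real.exp (-(2 * Real.pi * (N * (r / 4)))) * Real.exp (N * (5 / 4 * r ^ 2))) +
      4 * (N * (r / 4)) * Real.exp (-(N * r ^ 2 / 2)) =
      4 * n * (Real.exp (-(2 * Real.pi * (N * (r / 4)))) * Real.exp (N * (5 / 4 * r ^ 2))) +
        N * r * Real.exp (-(N * r ^ 2 / 2)) := by ring
    _ ≤ 4 * N * Real.exp (-(N * r ^ 2 / 2)) + N * 1 * Real.exp (-(N * r ^ 2 / 2)) := by
        gcongr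
        linarith
    _ = 5 * N * Real.exp (-(N * r ^ 2 / 2)) := by ring

lemma KS_factor (N : ℕ) (r : ℝ) (T B : ℂ → ℂ) (c : ℂ) :
    KS N r T B = exp (N * c) * KS N r (fun z => T z - c) B := by
  unfold KS
  rw [Finset.mul_sum]
  apply Finset.sum_congr rfl
  intro m _
  rw [← mul_assoc, ← exp_add]
  congr 2
  ring

/-- conditions on `N` -/
lemma large {r : ℝ} (hr : 0 < r) : ∃ N0 : ℕ, ∀ N : ℕ, N0 ≤ N → 100 / r ≤ N ∧ (25 : ℝ) ≤ N ∧
    10 * N * Real.exp (-(N * r ^ 2 / 2)) ≤ 1 ∧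
    Real.exp (-(2 * Real.pi * N * (2 / 5 * r) ^ 2)) ≤ 1 / 40 := by
  have hpi := Real.pi_pos
  have h1 : ∀ᶠ N : ℕ in atTop, 100 / r ≤ N :=
    tendsto_natCast_atTop_atTop.eventually_ge_atTop _
  have h2 : ∀ᶠ N : ℕ in atTop, (25 : ℝ) ≤ N :=
    tendsto_natCast_atTop_atTop.eventually_ge_atTop _
  have h3 : ∀ᶠ N : ℕ in atTop, 10 * (N : ℝ) * Real.exp (-(N * r ^ 2 / 2)) ≤ 1 := by
    have t1 : Tendsto (fun x : ℝ => x * Real.exp (-x)) atTop (𝓝 0) := by
      have := Real.tendsto_pow_mul_exp_neg_atTop_nhds_zero 1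
      simpa using this
    have t2 : Tendsto (fun N : ℕ => (N : ℝ) * (r ^ 2 / 2)) atTop atTop :=
      tendsto_natCast_atTop_atTop.atTop_mul_const (by positivity)
    have t3 := (t1.comp t2).const_mul (10 * (2 / r ^ 2))
    rw [mul_zero] at t3
    filter_upwards [t3.eventually (gt_mem_nhds one_pos)] with N hN
    have e : 10 * (2 / r ^ 2) * ((fun x : ℝ => x * Real.exp (-x)) ∘
        fun N : ℕ => (N : ℝ) * (r ^ 2 / 2)) N = 10 * (N : ℝ) * Real.exp (-(N * r ^ 2 / 2)) := by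
      simp only [Function.comp]
      have : (N : ℝ) * (r ^ 2 / 2) = N * r ^ 2 / 2 := by ring
      rw [this]
      field_simp
    rw [e] at hN
    exact hN.le
  have h4 : ∀ᶠ N : ℕ in atTop, Real.exp (-(2 * Real.pi * N * (2 / 5 * r) ^ 2)) ≤ 1 / 40 := by
    have t1 : Tendsto (fun x : ℝ => Real.exp (-x)) atTop (𝓝 0) :=
      Real.tendsto_exp_neg_atTop_nhds_zero
    have t2 : Tendsto (fun N : ℕ => (N : ℝ) * (2 * Real.pi * (2 / 5 * r) ^ 2)) atTop atTop :=
      tendsto_natCast_atTop_atTop.atTop_mul_const (by positivity)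
    filter_upwards [(t1.comp t2).eventually (gt_mem_nhds (by norm_num : (0 : ℝ) < 1 / 40))]
      with N hN
    simp only [Function.comp] at hN
    have : -(2 * Real.pi * N * (2 / 5 * r) ^ 2) = -((N : ℝ) * (2 * Real.pi * (2 / 5 * r) ^ 2)) := by
      ring
    rw [this]
    exact hN.le
  obtain ⟨N0, hN0⟩ := eventually_atTop.1 (h1.and (h2.and (h3.and h4)))
  exact ⟨N0, fun N hN => hN0 N hN⟩

theorem KL {r : ℝ} (hr : 0 < r) (hr1 : r ≤ 1 / 20) : ∃ C : ℝ, 0 < C ∧ ∃ N0 : ℕ, ∀ N : ℕ, N0 ≤ N →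
    ∀ T : ℂ → ℂ, DifferentiableOn ℂ T (Metric.ball (1 / 4) r) → ‖deriv T (1 / 4)‖ ≤ r →
      LipS (1 / 4) r 4 1 (deriv T) →
      ∃ t : ℂ, ‖t - 1 / 4‖ ≤ ‖deriv T (1 / 4)‖ / 20 ∧ deriv T t = 0 ∧
        1 / C * Real.exp (N * (T t).re) ≤ ‖KS N r T (fun _ => 1)‖ ∧
        ‖KS N r T (fun _ => 1)‖ ≤ C * N * Real.exp (N * (T t).re) ∧
        ∀ B : ℂ → ℂ, DifferentiableOn ℂ B (Metric.ball (1 / 4) r) →
          (∀ z ∈ Metric.ball (1 / 4 : ℂ) r, ‖B z‖ ≤ 1) →
          ‖KS N r T B - B t * KS N r T (fun _ => 1)‖ ≤ C / Real.sqrt N * ‖KS N r T (fun _ => 1)‖ := by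
  obtain ⟨N0, hN0⟩ := large hr
  refine ⟨5 * (4 / r + 1), by positivity, N0, ?_⟩
  intro N hN T hT hT0 hS
  obtain ⟨hNr, hN25, hNe, hNg⟩ := hN0 N hN
  have hNpos : (0 : ℝ) < N := by linarith
  have hNn : 0 < N := by exact_mod_cast hNpos
  obtain ⟨τ, hτ, h0⟩ := exists_crit hr hT0 hS
  have hτr : ‖τ - 1 / 4‖ ≤ r / 20 := hτ.trans (by linarith)
  have hτb : τ ∈ Metric.ball (1 / 4 : ℂ) r := by
    rw [Metric.mem_ball, dist_eq_norm]; linarith
  obtain ⟨s0, s1, hs0, hs1, hs2, hs3, hmain⟩ := sum_int hr hr1 hT hS hτr h0 hNr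
  have hball : ∀ s : ℝ, s0 ≤ s → s ≤ s1 → τ + s ∈ Metric.ball (1 / 4 : ℂ) r := by
    intro s h1 h2
    rw [Metric.mem_ball, dist_eq_norm]
    have h3 : ‖τ + s - 1 / 4‖ ≤ ‖τ - 1 / 4‖ + |s| := by
      rw [show τ + (s : ℂ) - 1 / 4 = (τ - 1 / 4) + s by ring]
      refine (norm_add_le _ _).trans (le_of_eq ?_)
      rw [norm_real, Real.norm_eq_abs]
    have h4 : |s| ≤ 3 / 5 * r := abs_le.2 ⟨by linarith, by linarith⟩
    linarith
  have hsq : 0 < Real.sqrt N := Real.sqrt_pos.2 hNpos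
  have hsqN : Real.sqrt N * Real.sqrt N = N := Real.mul_self_sqrt hNpos.le
  have hdiv : (N : ℝ) / Real.sqrt N = Real.sqrt N := Real.div_sqrt
  have hsq5 : 5 ≤ Real.sqrt N := by
    apply Real.le_sqrt_of_sq_le; linarith
  obtain ⟨J1, J2⟩ := J_bounds hT hS hτb h0 hNn (by positivity) hs0 hs1 hball hNg
  have hm1 := hmain (fun _ => 1) (differentiableOn_const 1) (fun z _ => by simp)
  simp only [mul_one] at hm1
  set J := ∫ s in s0..s1, exp (N * (T (τ + s) - T τ)) with hJ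
  set K1 := KS N r (fun z => T z - T τ) (fun _ => 1) with hK1
  set ε := 5 * N * Real.exp (-(N * r ^ 2 / 2)) with hε
  have hε1 : ε ≤ 1 / 2 := by rw [hε]; linarith
  have hε0 : 0 ≤ ε := by positivity
  have hNJ : ‖(N : ℂ) * J‖ = N * ‖J‖ := by rw [norm_mul, Complex.norm_natCast]
  have hlow : 3 / 10 * Real.sqrt N ≤ ‖K1‖ := by
    have h1 : ‖(N : ℂ) * J‖ - ‖K1‖ ≤ ‖K1 - N * J‖ := by
      rw [norm_sub_rev]; exact norm_sub_norm_le _ _
    have h2 : N * (2 / 5 / Real.sqrt N) ≤ N * ‖J‖ := by gcongr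
    have h3 : N * (2 / 5 / Real.sqrt N) = 2 / 5 * Real.sqrt N := by
      calc N * (2 / 5 / Real.sqrt N) = 2 / 5 * (N / Real.sqrt N) := by ring
        _ = _ := by rw [hdiv]
    rw [hNJ] at h1
    linarith
  have hup : ‖K1‖ ≤ 2 * Real.sqrt N := by
    have h1 : ‖K1‖ ≤ ‖K1 - N * J‖ + ‖(N : ℂ) * J‖ := by
      have := norm_add_le (K1 - N * J) (N * J)
      rwa [sub_add_cancel] at this
    have h2 : N * ‖J‖ ≤ N * (1 / Real.sqrt N) := by gcongr
    have h3 : N * (1 / Real.sqrt N) = Real.sqrt N := by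
      calc N * (1 / Real.sqrt N) = N / Real.sqrt N := by ring
        _ = _ := hdiv
    rw [hNJ] at h1
    linarith
  have hnorm : ∀ B : ℂ → ℂ, ‖KS N r T B‖ = Real.exp (N * (T τ).re) *
      ‖KS N r (fun z => T z - T τ) B‖ := by
    intro B
    rw [KS_factor N r T B (T τ), norm_mul, norm_exp,
      show ((N : ℂ) * T τ) = ((N : ℝ) : ℂ) * T τ by push_cast; rfl, re_ofReal_mul]
  have hE := Real.exp_pos (N * (T τ).re)
  have hrinv : 0 < 4 / r := by positivity
  refine ⟨τ, hτ, h0, ?_, ?_, ?_⟩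
  · rw [hnorm]
    have h1 : 1 / (5 * (4 / r + 1)) ≤ ‖K1‖ := by
      have : 1 / (5 * (4 / r + 1)) ≤ 1 := by
        rw [div_le_one (by positivity)]; linarith
      linarith
    calc 1 / (5 * (4 / r + 1)) * Real.exp (N * (T τ).re) ≤ ‖K1‖ * Real.exp (N * (T τ).re) := by
          gcongr
      _ = _ := by rw [mul_comm]
  · rw [hnorm]
    have h1 : ‖K1‖ ≤ 5 * (4 / r + 1) * N := by
      have h2 : Real.sqrt N ≤ N := by
        rw [Real.sqrt_le_left hNpos.le]; nlinarith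
      nlinarith
    calc Real.exp (N * (T τ).re) * ‖K1‖ ≤ Real.exp (N * (T τ).re) * (5 * (4 / r + 1) * N) := by
          gcongr
      _ = _ := by ring
  · intro B hB hB1
    have hmB := hmain B hB hB1
    set KB := KS N r (fun z => T z - T τ) B with hKB
    set JB := ∫ s in s0..s1, exp (N * (T (τ + s) - T τ)) * B (τ + s) with hJB
    have hBτ : ‖B τ‖ ≤ 1 := hB1 τ hτb
    have hlip : ∀ s : ℝ, s0 ≤ s → s ≤ s1 → ‖B (τ + s) - B τ‖ ≤ 4 / r * |s| := by
      intro s h1 h2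
      have hsub : Metric.ball τ (19 / 20 * r) ⊆ Metric.ball (1 / 4 : ℂ) r := by
        intro z hz
        rw [Metric.mem_ball, dist_eq_norm] at hz ⊢
        have : ‖z - 1 / 4‖ ≤ ‖z - τ‖ + ‖τ - 1 / 4‖ := by
          have := norm_add_le (z - τ) (τ - 1 / 4)
          rwa [sub_add_sub_cancel] at this
        linarith
      have hmaps : MapsTo B (Metric.ball τ (19 / 20 * r)) (Metric.closedBall (B τ) (5 / 2)) := by
        intro z hz
        rw [Metric.mem_closedBall, dist_eq_norm]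
        have := norm_sub_le (B z) (B τ)
        have := hB1 z (hsub hz)
        linarith
      have hz : τ + (s : ℂ) ∈ Metric.ball τ (19 / 20 * r) := by
        rw [Metric.mem_ball, dist_eq_norm, add_sub_cancel_left, norm_real, Real.norm_eq_abs]
        have h4 : |s| ≤ 3 / 5 * r := abs_le.2 ⟨by linarith, by linarith⟩
        linarith
      have h3 := Complex.dist_le_div_mul_dist_of_mapsTo_ball (hB.mono hsub) hmaps hz
      rw [dist_eq_norm, dist_eq_norm, add_sub_cancel_left, norm_real, Real.norm_eq_abs] at h3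
      refine h3.trans ?_
      apply mul_le_mul_of_nonneg_right _ (abs_nonneg _)
      rw [div_le_div_iff₀ (by positivity) hr]
      linarith
    have hrat := J_ratio hT hS hτb h0 hNn (by linarith) hrinv.le hball hB hlip
    have h5 : ‖KB - B τ * K1‖ ≤ 4 / r + 1 := by
      have e : KB - B τ * K1 = (KB - N * JB) + N * (JB - B τ * J) - B τ * (K1 - N * J) := by ring
      have h6 : ‖(N : ℂ) * (JB - B τ * J)‖ ≤ 4 / r := by
        rw [norm_mul, Complex.norm_natCast]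
        calc (N : ℝ) * ‖JB - B τ * J‖ ≤ N * (4 / r / N) := by gcongr
          _ = 4 / r := by field_simp
      have h7 : ‖B τ * (K1 - N * J)‖ ≤ 1 / 2 := by
        rw [norm_mul]
        calc ‖B τ‖ * ‖K1 - N * J‖ ≤ 1 * ε := by gcongr
          _ ≤ 1 / 2 := by linarith
      rw [e]
      refine (norm_sub_le _ _).trans ?_
      have := norm_add_le (KB - N * JB) (N * (JB - B τ * J))
      linarith
    have h8 : KS N r T B - B τ * KS N r T (fun _ => 1) = exp (N * T τ) * (KB - B τ * K1) := by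
      rw [KS_factor N r T B (T τ), KS_factor N r T (fun _ => 1) (T τ)]
      ring
    rw [h8, norm_mul, norm_exp, show ((N : ℂ) * T τ) = ((N : ℝ) : ℂ) * T τ by push_cast; rfl,
      re_ofReal_mul, hnorm]
    have h9 : ‖KB - B τ * K1‖ ≤ 5 * (4 / r + 1) / Real.sqrt N * ‖K1‖ := by
      have h10 : 5 * (4 / r + 1) / Real.sqrt N * (3 / 10 * Real.sqrt N) =
          3 / 2 * (4 / r + 1) := by field_simp; ring
      have h11 : 5 * (4 / r + 1) / Real.sqrt N * (3 / 10 * Real.sqrt N) ≤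
          5 * (4 / r + 1) / Real.sqrt N * ‖K1‖ := by gcongr
      linarith
    calc Real.exp (N * (T τ).re) * ‖KB - B τ * K1‖ ≤
        Real.exp (N * (T τ).re) * (5 * (4 / r + 1) / Real.sqrt N * ‖K1‖) := by gcongr
      _ = _ := by ring

end Pool.Agent.Helper66.TF

namespace Pool.Agent.Helper9.TF

/-- the kernel sum lemma -/
theorem KL {r : ℝ} (hr : 0 < r) (hr1 : r ≤ 1 / 20) : ∃ C : ℝ, 0 < C ∧ ∃ N0 : ℕ, ∀ N : ℕ, N0 ≤ N →
    ∀ T : ℂ → ℂ, DifferentiableOn ℂ T (Metric.ball (1 / 4) r) → ‖deriv T (1 / 4)‖ ≤ r →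
      LipS (1 / 4) r 4 1 (deriv T) →
      ∃ t : ℂ, ‖t - 1 / 4‖ ≤ ‖deriv T (1 / 4)‖ / 20 ∧ deriv T t = 0 ∧
        1 / C * Real.exp (N * (T t).re) ≤ ‖KS N r T (fun _ => 1)‖ ∧
        ‖KS N r T (fun _ => 1)‖ ≤ C * N * Real.exp (N * (T t).re) ∧
        ∀ B : ℂ → ℂ, DifferentiableOn ℂ B (Metric.ball (1 / 4) r) →
          (∀ z ∈ Metric.ball (1 / 4 : ℂ) r, ‖B z‖ ≤ 1) →
          ‖KS N r T B - B t * KS N r T (fun _ => 1)‖ ≤ C / Real.sqrt N * ‖KS N r T (fun _ => 1)‖ :=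
  Pool.Agent.Helper66.TF.KL hr hr1

end Pool.Agent.Helper9.TF
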