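import Mathlib
import Pool.Agent.Helper9.TB.Contour

/-!
# Sums of analytic functions as integrals, cell by cell
-/

namespace Pool.Agent.Helper66.TF

open Complex MeasureTheory intervalIntegral Set
open Pool.Agent.Helper9.TB

/-- residue at `0` on the rectangle, for a function analytic near the rectangle -/
lemma LI_local {F : ℂ → ℂ} {U : Set ℂ} (hU : IsOpen U) (hF : DifferentiableOn ℂ F U) {h : ℝ}
    (hh : 0 < h) (hsub : RC h ⊆ U) : LI (fun y => F y * pc y) h = 2 * Real.pi * I * F 0 := by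
  have h0U : (0 : ℂ) ∈ U := hsub ⟨by simp, by simpa using hh.le⟩
  set G : ℂ → ℂ := fun y => dslope F 0 y * (Real.pi * Complex.cos (Real.pi * y) / sl y) with hG
  have hds : DifferentiableOn ℂ (dslope F 0) U :=
    (Complex.differentiableOn_dslope (hU.mem_nhds h0U)).mpr hF
  have hre : ∀ y ∈ RC h, |y.re| < 1 := fun y hy => lt_of_le_of_lt hy.1 (by norm_num)
  have hGd : DifferentiableOn ℂ G (RC h) := by
    intro y hy
    have hne : sl y ≠ 0 := sl_ne (Or.inr (hre y hy))
    have h1 : DifferentiableAt ℂ (dslope F 0) y :=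
      (hds y (hsub hy)).differentiableAt (hU.mem_nhds (hsub hy))
    apply DifferentiableAt.differentiableWithinAt
    apply DifferentiableAt.mul h1
    apply DifferentiableAt.div
    · fun_prop
    · exact sl_diff _
    · exact hne
  have hsub' : RB h ⊆ RC h := by
    intro y hy'
    rcases hy' with h1 | h1
    · exact ⟨h1.1, h1.2.le⟩
    · exact ⟨h1.1.le, h1.2⟩
  have hne0 : ∀ y ∈ RB h, y ≠ 0 := by
    intro y hy' h0
    rw [h0] at hy'
    rcases hy' with h2 | h2
    · have := h2.2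
      simp at this
      linarith
    · have := h2.1
      simp at this
  have hpcont : ContinuousOn pc (RB h) := by
    intro y hy'
    have hne : Complex.sin (Real.pi * y) ≠ 0 := by
      rw [← sl_mul]
      exact mul_ne_zero (hne0 y hy') (sl_ne (Or.inr (hre y (hsub' hy'))))
    apply ContinuousAt.continuousWithinAt
    unfold pc
    fun_prop (disch := assumption)
  have h1 : LI (fun y => F y * pc y) h = LI (fun y => G y + F 0 * pc y) h := by
    apply LI_congr hh.le
    intro y hy'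
    have h2 := hne0 y hy'
    have h3 : sl y ≠ 0 := sl_ne (Or.inr (hre y (hsub' hy')))
    have h4 := sub_smul_dslope F 0 y
    rw [smul_eq_mul, sub_zero] at h4
    simp only [hG]
    unfold pc
    rw [← sl_mul]
    have h5 : F y = y * dslope F 0 y + F 0 := by rw [h4]; ring
    rw [h5]
    field_simp
  have hc2 : ContinuousOn (fun y : ℂ => F 0 * pc y) (RB h) := continuousOn_const.mul hpcont
  have h6 := LI_pc hh 0
  simp only [Complex.ofReal_zero, sub_zero] at h6
  rw [h1, LI_add hh.le (hGd.continuousOn.mono hsub') hc2, LI_zero hh.le hGd, LI_mul, h6]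
  ring

lemma norm_q {h : ℝ} (x : ℝ) :
    ‖Complex.exp (-(2 * Real.pi * I * ((x : ℂ) - h * I)))‖ = Real.exp (-(2 * Real.pi * h)) := by
  rw [Complex.norm_exp]
  congr 1
  have : -(2 * Real.pi * I * ((x : ℂ) - h * I)) =
      ((-(2 * Real.pi * h) : ℝ) : ℂ) + ((-(2 * Real.pi * x) : ℝ) : ℂ) * I := by
    push_cast
    linear_combination (2 * Real.pi * h : ℂ) * I_sq
  rw [this, re_pt]

/-- the cotangent in the lower half plane -/
lemma pc_lower {h : ℝ} (hh : 0 < h) (hq : Real.exp (-(2 * Real.pi * h)) ≤ 1 / 2) (x : ℝ) :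
    ‖pc ((x : ℂ) - h * I) - Real.pi * I‖ ≤ 4 * Real.pi * Real.exp (-(2 * Real.pi * h)) := by
  rw [pc_eq (sin_pi_ne (Or.inl (by simp; exact hh.ne')))]
  have hn := norm_q (h := h) x
  set q := Complex.exp (-(2 * Real.pi * I * ((x : ℂ) - h * I))) with hqd
  have h1 : 1 / 2 ≤ ‖1 - q‖ := by
    have := norm_sub_norm_le (1 : ℂ) q
    rw [norm_one, hn] at this
    linarith
  have hne : 1 - q ≠ 0 := by
    intro h0
    rw [h0, norm_zero] at h1
    linarith
  have e : Real.pi * (I * ((1 + q) / (1 - q))) - Real.pi * I = 2 * Real.pi * I * q / (1 - q) := by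
    field_simp
    ring
  rw [e, norm_div, norm_mul, norm_mul, norm_mul, Complex.norm_ofNat, norm_I, Complex.norm_real,
    Real.norm_of_nonneg Real.pi_pos.le, hn, div_le_iff₀ (by linarith)]
  have := Real.exp_pos (-(2 * Real.pi * h))
  nlinarith [Real.pi_pos, mul_pos Real.pi_pos this]

/-- the cotangent in the upper half plane -/
lemma pc_upper {h : ℝ} (hh : 0 < h) (hq : Real.exp (-(2 * Real.pi * h)) ≤ 1 / 2) (x : ℝ) :
    ‖pc ((x : ℂ) + h * I) + Real.pi * I‖ ≤ 4 * Real.pi * Real.exp (-(2 * Real.pi * h)) := by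
  have h1 := pc_lower hh hq (-x)
  have e : pc ((x : ℂ) + h * I) + Real.pi * I =
      -(pc (((-x : ℝ) : ℂ) - h * I) - Real.pi * I) := by
    have : (x : ℂ) + h * I = -(((-x : ℝ) : ℂ) - h * I) := by push_cast; ring
    rw [this, pc_neg]; ring
  rw [e, norm_neg]
  exact h1

/-- the cotangent on the vertical line `Re = 1 / 2` -/
lemma pc_half (y : ℝ) : ‖pc (((1 / 2 : ℝ) : ℂ) + y * I)‖ ≤ Real.pi := by
  unfold pc
  have e : (Real.pi : ℂ) * (((1 / 2 : ℝ) : ℂ) + y * I) =
      Real.pi * y * I + Real.pi / 2 := by push_cast; ring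
  rw [e, Complex.cos_add_pi_div_two, Complex.sin_add_pi_div_two, Complex.sin_mul_I,
    Complex.cos_mul_I, norm_mul, Complex.norm_real, Real.norm_of_nonneg Real.pi_pos.le]
  have h1 : ‖-(Complex.sinh (Real.pi * y) * I) / Complex.cosh (Real.pi * y)‖ ≤ 1 := by
    have e1 : (Real.pi : ℂ) * y = ((Real.pi * y : ℝ) : ℂ) := by push_cast; ring
    rw [e1, ← Complex.ofReal_sinh, ← Complex.ofReal_cosh, norm_div, norm_neg, norm_mul, norm_I,
      mul_one, Complex.norm_real, Complex.norm_real, Real.norm_eq_abs, Real.norm_eq_abs,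
      abs_of_pos (Real.cosh_pos _), div_le_one (Real.cosh_pos _)]
    rw [Real.abs_sinh, ← Real.cosh_abs]
    exact (Real.sinh_lt_cosh _).le
  calc Real.pi * ‖-(Complex.sinh (Real.pi * y) * I) / Complex.cosh (Real.pi * y)‖ ≤
      Real.pi * 1 := by gcongr
    _ = Real.pi := mul_one _

/-- the boundary term -/
noncomputable def PT (f : ℂ → ℂ) (h v u : ℝ) : ℂ :=
  (-(I * ∫ y in (-h)..v, f (u + y * I)) + I * ∫ y in v..h, f (u + y * I)) / 2 +
    (∫ y in (-h)..h, f (u + y * I) * pc (((1 / 2 : ℝ) : ℂ) + y * I)) / (2 * Real.pi)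

lemma PT_bound {f : ℂ → ℂ} {h v u M : ℝ} (h1 : -h ≤ v) (h2 : v ≤ h)
    (hM : ∀ y : ℝ, |y| ≤ h → ‖f (u + y * I)‖ ≤ M) : ‖PT f h v u‖ ≤ 2 * h * M := by
  have hh : 0 ≤ h := by linarith
  have hM0 : 0 ≤ M := (norm_nonneg _).trans (hM 0 (by simpa using hh))
  have b1 : ‖∫ y in (-h)..v, f (u + y * I)‖ ≤ M * |v - -h| := by
    apply intervalIntegral.norm_integral_le_of_norm_le_const
    intro y hy
    rw [uIoc_of_le h1] at hy
    exact hM y (abs_le.2 ⟨hy.1.le, hy.2.trans h2⟩)
  have b2 : ‖∫ y in v..h, f (u + y * I)‖ ≤ M * |h - v| := by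
    apply intervalIntegral.norm_integral_le_of_norm_le_const
    intro y hy
    rw [uIoc_of_le h2] at hy
    exact hM y (abs_le.2 ⟨by linarith [hy.1], hy.2⟩)
  have b3 : ‖∫ y in (-h)..h, f (u + y * I) * pc (((1 / 2 : ℝ) : ℂ) + y * I)‖ ≤
      M * Real.pi * |h - -h| := by
    apply intervalIntegral.norm_integral_le_of_norm_le_const
    intro y hy
    rw [uIoc_of_le (by linarith)] at hy
    rw [norm_mul]
    exact mul_le_mul (hM y (abs_le.2 ⟨hy.1.le, hy.2⟩)) (pc_half y) (norm_nonneg _) hM0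
  rw [abs_of_nonneg (by linarith)] at b1 b2 b3
  unfold PT
  have hpi := Real.pi_pos
  refine (norm_add_le _ _).trans ?_
  have c1 : ‖(-(I * ∫ y in (-h)..v, f (u + y * I)) + I * ∫ y in v..h, f (u + y * I)) / 2‖ ≤
      h * M := by
    rw [norm_div, Complex.norm_ofNat, div_le_iff₀ (by norm_num)]
    refine (norm_add_le _ _).trans ?_
    rw [norm_neg, norm_mul, norm_mul, norm_I, one_mul, one_mul]
    linarith
  have c2 : ‖(∫ y in (-h)..h, f (u + y * I) * pc (((1 / 2 : ℝ) : ℂ) + y * I)) /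
      (2 * Real.pi)‖ ≤ h * M := by
    rw [norm_div, norm_mul, Complex.norm_ofNat, Complex.norm_real,
      Real.norm_of_nonneg Real.pi_pos.le, div_le_iff₀ (by positivity)]
    linarith
  linarith

/-- one cell -/
theorem cell {f : ℂ → ℂ} {U : Set ℂ} (hU : IsOpen U) (hf : DifferentiableOn ℂ f U) {h v m M : ℝ}
    (hh : 0 < h) (hq : Real.exp (-(2 * Real.pi * h)) ≤ 1 / 2) (hv1 : -h ≤ v) (hv2 : v ≤ h)
    (hsub : ∀ z : ℂ, |z.re - m| ≤ 1 / 2 → |z.im| ≤ h → z ∈ U)
    (hM : ∀ z : ℂ, |z.re - m| ≤ 1 / 2 → |z.im| = h → ‖f z‖ ≤ M) :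
    ‖f m - (∫ x in (m - 1 / 2)..(m + 1 / 2), f (x + v * I)) -
      (PT f h v (m + 1 / 2) - PT f h v (m - 1 / 2))‖ ≤ 4 * Real.exp (-(2 * Real.pi * h)) * M := by
  have hpi := Real.pi_pos
  set F : ℂ → ℂ := fun z => f (m + z) with hF
  set V : Set ℂ := (fun z : ℂ => (m : ℂ) + z) ⁻¹' U with hV
  have hVo : IsOpen V := hU.preimage (by fun_prop)
  have hFd : DifferentiableOn ℂ F V := by
    intro z hz
    apply DifferentiableWithinAt.comp z (hf (m + z) hz) (by fun_prop) (fun w hw => hw)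
  have hRC : RC h ⊆ V := by
    intro z hz
    apply hsub
    · rw [add_re, ofReal_re, add_sub_cancel_left]; exact hz.1
    · rw [add_im, ofReal_im, zero_add]; exact hz.2
  have hLI := LI_local hVo hFd hh hRC
  have hRB : RB h ⊆ RC h := by
    intro y hy'
    rcases hy' with h1 | h1
    · exact ⟨h1.1, h1.2.le⟩
    · exact ⟨h1.1.le, h1.2⟩
  have hFc : ContinuousOn F (RC h) := hFd.continuousOn.mono hRC
  -- horizontal integrals of F
  have rect : ∀ c d : ℝ, -h ≤ c → c ≤ d → d ≤ h →
      hor F (-1 / 2) (1 / 2) c - hor F (-1 / 2) (1 / 2) d + I * ver F (1 / 2) c d -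
        I * ver F (-1 / 2) c d = 0 := by
    intro c d hc hcd hd
    have h1 := integral_boundary_rect_eq_zero_of_differentiableOn F
      (((-1 / 2 : ℝ) : ℂ) + (c : ℂ) * I) (((1 / 2 : ℝ) : ℂ) + (d : ℂ) * I) (by
        apply (hFd.mono hRC).mono
        rw [re_pt, re_pt, im_pt, im_pt, uIcc_of_le (by norm_num), uIcc_of_le hcd]
        intro y hy
        rw [mem_reProdIm] at hy
        constructor
        · rw [abs_le]; exact ⟨by linarith [hy.1.1], hy.1.2⟩
        · rw [abs_le]; exact ⟨by linarith [hy.2.1], by linarith [hy.2.2]⟩)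
    rw [re_pt, re_pt, im_pt, im_pt] at h1
    unfold hor ver
    simpa only [smul_eq_mul] using h1
  have r1 := rect (-h) v le_rfl hv1 hv2
  have r2 := rect v h hv1 hv2 le_rfl
  -- splitting of the cotangent
  have hcor : ∀ η : ℝ, |η| = h → ContinuousOn (fun x : ℝ => F (x + η * I)) (uIcc (-1 / 2) (1 / 2)) :=
    fun η hη => hor_cont (hFc.mono hRB) (mem_RB_hor hη)
  have hpcc : ∀ η : ℝ, |η| = h → Continuous (fun x : ℝ => pc (x + η * I)) := by
    intro η hη
    rw [continuous_iff_continuousAt]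
    intro x
    have hne : Complex.sin (Real.pi * ((x : ℂ) + η * I)) ≠ 0 := by
      apply sin_pi_ne
      left
      rw [im_pt]
      intro h0
      rw [h0, abs_zero] at hη
      linarith
    unfold pc
    fun_prop (disch := assumption)
  have hM0 : 0 ≤ M := (norm_nonneg _).trans
    (hM (m + ((0 : ℝ) : ℂ) + h * I) (by simp) (by simp; exact hh.le))
  have hFM : ∀ x η : ℝ, |x| ≤ 1 / 2 → |η| = h → ‖F (x + η * I)‖ ≤ M := by
    intro x η hx hη
    apply hM
    · rw [add_re, ofReal_re, re_pt, add_sub_cancel_left]; exact hx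
    · rw [add_im, ofReal_im, im_pt, zero_add]; exact hη
  have split : ∀ (η : ℝ) (c : ℂ), |η| = h → (∀ x : ℝ, ‖pc ((x : ℂ) + η * I) - c‖ ≤
      4 * Real.pi * Real.exp (-(2 * Real.pi * h))) →
      ‖hor (fun y => F y * pc y) (-1 / 2) (1 / 2) η - c * hor F (-1 / 2) (1 / 2) η‖ ≤
        M * (4 * Real.pi * Real.exp (-(2 * Real.pi * h))) := by
    intro η c hη hc
    have e : hor (fun y => F y * pc y) (-1 / 2) (1 / 2) η - c * hor F (-1 / 2) (1 / 2) η =
        ∫ x in (-1 / 2 : ℝ)..(1 / 2), F (x + η * I) * (pc ((x : ℂ) + η * I) - c) := by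
      unfold hor
      rw [← intervalIntegral.integral_const_mul, ← intervalIntegral.integral_sub]
      · apply intervalIntegral.integral_congr
        intro x _
        simp only
        ring
      · exact ((hcor η hη).mul (hpcc η hη).continuousOn).intervalIntegrable
      · exact (continuousOn_const.mul (hcor η hη)).intervalIntegrable
    rw [e]
    have := intervalIntegral.norm_integral_le_of_norm_le_const (a := -1 / 2) (b := 1 / 2)
      (f := fun x : ℝ => F (x + η * I) * (pc ((x : ℂ) + η * I) - c))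
      (C := M * (4 * Real.pi * Real.exp (-(2 * Real.pi * h)))) (by
        intro x hx
        rw [uIoc_of_le (by norm_num)] at hx
        rw [norm_mul]
        apply mul_le_mul _ (hc x) (norm_nonneg _) hM0
        exact hFM x η (abs_le.2 ⟨by linarith [hx.1], hx.2⟩) hη)
    refine this.trans (le_of_eq ?_)
    norm_num
  have s1 := split (-h) (Real.pi * I) (by rw [abs_neg, abs_of_pos hh]) (by
    intro x
    have := pc_lower hh hq x
    have e : (x : ℂ) + ((-h : ℝ) : ℂ) * I = (x : ℂ) - h * I := by push_cast; ring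
    rw [e]
    exact this)
  have s2 := split h (-(Real.pi * I)) (abs_of_pos hh) (by
    intro x
    rw [sub_neg_eq_add]
    exact pc_upper hh hq x)
  -- translation of the integrals
  have t1 : (∫ x in (m - 1 / 2)..(m + 1 / 2), f (x + v * I)) = hor F (-1 / 2) (1 / 2) v := by
    unfold hor
    have := intervalIntegral.integral_comp_add_left (a := -1 / 2) (b := 1 / 2)
      (fun x : ℝ => f (x + v * I)) m
    rw [show m + -1 / 2 = m - 1 / 2 by ring] at this
    rw [← this]
    apply intervalIntegral.integral_congr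
    intro x _
    simp only [hF]
    congr 1
    push_cast
    ring
  have t2 : ∀ c d : ℝ, ∀ s : ℝ, (∫ y in c..d, f (((m + s : ℝ) : ℂ) + y * I)) = ver F s c d := by
    intro c d s
    unfold ver
    apply intervalIntegral.integral_congr
    intro y _
    simp only [hF]
    congr 1
    push_cast
    ring
  have t3 : (∫ y in (-h)..h, f (((m + 1 / 2 : ℝ) : ℂ) + y * I) * pc (((1 / 2 : ℝ) : ℂ) + y * I)) =
      ver (fun y => F y * pc y) (1 / 2) (-h) h := by
    unfold ver
    apply intervalIntegral.integral_congr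
    intro y _
    simp only [hF]
    congr 2
    push_cast
    ring
  have t4 : (∫ y in (-h)..h, f (((m - 1 / 2 : ℝ) : ℂ) + y * I) * pc (((1 / 2 : ℝ) : ℂ) + y * I)) =
      ver (fun y => F y * pc y) (-1 / 2) (-h) h := by
    unfold ver
    apply intervalIntegral.integral_congr
    intro y _
    simp only [hF]
    rw [show ((1 / 2 : ℝ) : ℂ) + y * I = (((-1 / 2 : ℝ) : ℂ) + y * I) + 1 by push_cast; ring,
      pc_add_one]
    congr 2
    push_cast
    ring
  have p1 : PT f h v (m + 1 / 2) = (-(I * ver F (1 / 2) (-h) v) + I * ver F (1 / 2) v h) / 2 +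
      ver (fun y => F y * pc y) (1 / 2) (-h) h / (2 * Real.pi) := by
    unfold PT
    rw [t2, t2, t3]
  have p2 : PT f h v (m - 1 / 2) = (-(I * ver F (-1 / 2) (-h) v) + I * ver F (-1 / 2) v h) / 2 +
      ver (fun y => F y * pc y) (-1 / 2) (-h) h / (2 * Real.pi) := by
    unfold PT
    have e : m - 1 / 2 = m + -1 / 2 := by ring
    rw [t4, e, t2, t2]
  have hf0 : F 0 = f m := by simp [hF]
  unfold LI at hLI
  rw [hf0] at hLI
  rw [t1, p1, p2]
  set A1 := hor (fun y => F y * pc y) (-1 / 2) (1 / 2) (-h)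
  set A2 := hor (fun y => F y * pc y) (-1 / 2) (1 / 2) h
  set B1 := hor F (-1 / 2) (1 / 2) (-h)
  set B2 := hor F (-1 / 2) (1 / 2) h
  set B0 := hor F (-1 / 2) (1 / 2) v
  set W1 := ver (fun y => F y * pc y) (1 / 2) (-h) h
  set W2 := ver (fun y => F y * pc y) (-1 / 2) (-h) h
  have hpi0 : (Real.pi : ℂ) ≠ 0 := by exact_mod_cast hpi.ne'
  have key : f m - B0 - ((-(I * ver F (1 / 2) (-h) v) + I * ver F (1 / 2) v h) / 2 +
      W1 / (2 * Real.pi) - ((-(I * ver F (-1 / 2) (-h) v) + I * ver F (-1 / 2) v h) / 2 +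
      W2 / (2 * Real.pi))) = ((A1 - Real.pi * I * B1) - (A2 - -(Real.pi * I) * B2)) /
        (2 * Real.pi * I) := by
    have hI : (I : ℂ) ≠ 0 := I_ne_zero
    have hw1 : W1 / (2 * Real.pi) * (2 * Real.pi) = W1 := by field_simp
    have hw2 : W2 / (2 * Real.pi) * (2 * Real.pi) = W2 := by field_simp
    rw [eq_div_iff (mul_ne_zero (mul_ne_zero two_ne_zero hpi0) hI)]
    linear_combination (-1 : ℂ) * hLI + (Real.pi * I) * (r1 - r2) - I * hw1 + I * hw2
  rw [key, norm_div, norm_mul, norm_mul, Complex.norm_ofNat, norm_I, Complex.norm_real,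
    Real.norm_of_nonneg hpi.le, mul_one, div_le_iff₀ (by positivity)]
  refine (norm_sub_le _ _).trans ?_
  linarith

end Pool.Agent.Helper66.TF
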