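import Mathlib
import Pool.Agent.Helper9.TF.Defs

/-!
# The critical point of an almost quadratic function
-/

namespace Pool.Agent.Helper66.TF

open Complex MeasureTheory intervalIntegral Set
open Pool.Agent.Helper9.TB Pool.Agent.Helper9.TF

/-- existence of the critical point -/
theorem exists_crit {r : ℝ} (hr : 0 < r) {S : ℂ → ℂ} (hS0 : ‖S (1 / 4)‖ ≤ r)
    (hS : LipS (1 / 4) r 4 1 S) :
    ∃ t : ℂ, ‖t - 1 / 4‖ ≤ ‖S (1 / 4)‖ / 20 ∧ S t = 0 := by
  have hpi := Real.pi_gt_three
  have hpi0 := Real.pi_pos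
  set ρ : ℝ := ‖S (1 / 4)‖ / 20 with hρ
  have hρ0 : 0 ≤ ρ := by positivity
  have hρr : ρ < r := by rw [hρ]; linarith
  set φ : ℂ → ℂ := fun t => t + S t / (8 * Real.pi) with hφ
  have hsub : ∀ t ∈ Metric.closedBall (1 / 4 : ℂ) ρ, t ∈ Metric.ball (1 / 4 : ℂ) r := by
    intro t ht
    rw [Metric.mem_closedBall] at ht
    rw [Metric.mem_ball]
    linarith
  have h8 : ‖(8 * (Real.pi : ℂ))‖ = 8 * Real.pi := by
    rw [norm_mul, Complex.norm_ofNat, Complex.norm_real, Real.norm_of_nonneg hpi0.le]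
  have h8ne : (8 * (Real.pi : ℂ)) ≠ 0 := by
    have : (Real.pi : ℂ) ≠ 0 := by exact_mod_cast hpi0.ne'
    exact mul_ne_zero (by norm_num) this
  have hlip : ∀ t ∈ Metric.closedBall (1 / 4 : ℂ) ρ, ∀ s ∈ Metric.closedBall (1 / 4 : ℂ) ρ,
      ‖φ t - φ s‖ ≤ 1 / 20 * ‖t - s‖ := by
    intro t ht s hs
    have h1 := hS t (hsub t ht) s (hsub s hs)
    have e : φ t - φ s = (S t - S s + 2 * Real.pi * (4 : ℝ) * (t - s)) / (8 * Real.pi) := by
      simp only [hφ]
      field_simp
      push_cast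
      ring
    rw [e, norm_div, h8, div_le_iff₀ (by positivity)]
    have := norm_nonneg (t - s)
    nlinarith
  have h14 : (1 / 4 : ℂ) ∈ Metric.closedBall (1 / 4 : ℂ) ρ := Metric.mem_closedBall_self hρ0
  have hmaps : MapsTo φ (Metric.closedBall (1 / 4 : ℂ) ρ) (Metric.closedBall (1 / 4 : ℂ) ρ) := by
    intro t ht
    have h1 := hlip t ht _ h14
    rw [Metric.mem_closedBall, dist_eq_norm] at ht ⊢
    have h2 : φ t - 1 / 4 = (φ t - φ (1 / 4)) + S (1 / 4) / (8 * Real.pi) := by
      simp only [hφ]; ring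
    rw [h2]
    refine (norm_add_le _ _).trans ?_
    rw [norm_div, h8]
    have h3 : ‖S (1 / 4)‖ / (8 * Real.pi) ≤ 5 / 6 * ρ := by
      rw [hρ, div_le_iff₀ (by positivity)]
      have := norm_nonneg (S (1 / 4))
      nlinarith
    linarith
  have hcomplete : IsComplete (Metric.closedBall (1 / 4 : ℂ) ρ) :=
    Metric.isClosed_closedBall.isComplete
  have hcontr : ContractingWith (1 / 20 : NNReal) (hmaps.restrict φ _ _) := by
    refine ⟨?_, ?_⟩
    · rw [← NNReal.coe_lt_coe]; norm_num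
    · apply LipschitzWith.of_dist_le_mul
      rintro ⟨x, hx⟩ ⟨y, hy⟩
      rw [Subtype.dist_eq, Subtype.dist_eq, dist_eq_norm, dist_eq_norm]
      have := hlip x hx y hy
      simpa using this
  obtain ⟨t, ht, hfix, -⟩ := hcontr.exists_fixedPoint' hcomplete hmaps h14 (edist_ne_top _ _)
  refine ⟨t, ?_, ?_⟩
  · rw [Metric.mem_closedBall, dist_eq_norm] at ht
    exact ht
  · have h1 : t + S t / (8 * Real.pi) = t := hfix
    have h2 : S t / (8 * Real.pi) = 0 := by linear_combination h1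
    rcases div_eq_zero_iff.1 h2 with h | h
    · exact h
    · exact absurd h h8ne

/-- the second order expansion at the critical point -/
theorem quad {r : ℝ} {T : ℂ → ℂ} (hT : DifferentiableOn ℂ T (Metric.ball (1 / 4) r))
    (hS : LipS (1 / 4) r 4 1 (deriv T)) {t z : ℂ} (ht : t ∈ Metric.ball (1 / 4 : ℂ) r)
    (hz : z ∈ Metric.ball (1 / 4 : ℂ) r) (h0 : deriv T t = 0) :
    ‖T z - T t + 4 * Real.pi * (z - t) ^ 2‖ ≤ ‖z - t‖ ^ 2 := by
  have hseg : segment ℝ t z ⊆ Metric.ball (1 / 4 : ℂ) r :=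
    (convex_ball (1 / 4 : ℂ) r).segment_subset ht hz
  set g : ℂ → ℂ := fun w => T w + 4 * Real.pi * (w - t) ^ 2 with hg
  have hd : ∀ w ∈ segment ℝ t z, HasDerivWithinAt g (deriv T w + 8 * Real.pi * (w - t))
      (segment ℝ t z) w := by
    intro w hw
    have h1 : HasDerivAt T (deriv T w) w :=
      (hT.differentiableAt (Metric.isOpen_ball.mem_nhds (hseg hw))).hasDerivAt
    have h2 : HasDerivAt (fun w : ℂ => 4 * Real.pi * (w - t) ^ 2) (8 * Real.pi * (w - t)) w := by
      have := (((hasDerivAt_id w).sub_const t).pow 2).const_mul (4 * (Real.pi : ℂ))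
      refine this.congr_deriv ?_
      simp only [id]
      push_cast
      ring
    exact (h1.add h2).hasDerivWithinAt
  have hb : ∀ w ∈ segment ℝ t z, ‖deriv T w + 8 * Real.pi * (w - t)‖ ≤ ‖z - t‖ := by
    intro w hw
    have h1 := hS w (hseg hw) t ht
    rw [h0, sub_zero] at h1
    have h2 : deriv T w + 8 * Real.pi * (w - t) =
        deriv T w + 2 * Real.pi * (4 : ℝ) * (w - t) := by push_cast; ring
    rw [h2]
    have h3 : ‖w - t‖ ≤ ‖z - t‖ := by
      obtain ⟨a, b, ha, hb, hab, rfl⟩ := hw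
      have : a • t + b • z - t = b • (z - t) := by
        have : a = 1 - b := by linarith
        rw [this, sub_smul, one_smul, smul_sub]; ring
      rw [this, norm_smul, Real.norm_of_nonneg hb]
      have := norm_nonneg (z - t)
      nlinarith
    linarith
  have := Convex.norm_image_sub_le_of_norm_hasDerivWithin_le hd hb (convex_segment t z)
    (left_mem_segment ℝ t z) (right_mem_segment ℝ t z)
  have e : g z - g t = T z - T t + 4 * Real.pi * (z - t) ^ 2 := by
    simp only [hg]; ring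
  rw [e] at this
  rw [sq ‖z - t‖]
  exact this

end Pool.Agent.Helper66.TF
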