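import Pool.Agent.Helper96.TF.Base

/-!
# The real part of the critical value
-/

set_option autoImplicit false

namespace Pool.Agent.Helper9.TF

open Complex Finset
open Pool.Agent.Helper5.TB (BW BW_hasDerivAt BW_continuous BW_inv BW_ofReal)

/-- the real part of `CC` in terms of the Bloch-Wigner function -/
lemma CC_re {u : ℂ} (hu : u ∈ HS) (h0 : u.re ≠ 0) :
    (CC u).re = BW (-Complex.exp (-(2 * Real.pi * I * u))) / (2 * Real.pi) - u.im * (cc u).im := by
  have hpi := Real.pi_pos
  have hu' : |u.re| < 1 / 2 := hu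
  have hseg : ∀ s : ℝ, s ∈ Set.Icc (0 : ℝ) 1 → (s : ℂ) * u ∈ HS := by
    intro s hs
    show |((s : ℂ) * u).re| < 1 / 2
    rw [Complex.re_ofReal_mul, abs_mul, abs_of_nonneg hs.1]
    have h2 := abs_nonneg u.re
    nlinarith [hs.1, hs.2]
  set z : ℝ → ℂ := fun s => -Complex.exp (-(2 * Real.pi * I * (s * u))) with hz
  have hsu : ∀ s : ℝ, HasDerivAt (fun s : ℝ => (s : ℂ) * u) u s := by
    intro s
    have h3 : HasDerivAt (fun s : ℝ => (s : ℂ)) 1 s := Complex.ofRealCLM.hasDerivAt
    simpa using h3.mul_const u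
  have hzd : ∀ s : ℝ, HasDerivAt z (z s * (-(2 * Real.pi * I * u))) s := by
    intro s
    have h1 : HasDerivAt (fun s : ℝ => -(2 * Real.pi * I * ((s : ℂ) * u)))
        (-(2 * Real.pi * I * u)) s := ((hsu s).const_mul (2 * Real.pi * I)).neg
    have h2 := h1.cexp.neg
    refine h2.congr_deriv ?_
    simp only [hz]
    ring
  have hz1 : ∀ s : ℝ, s ∈ Set.Icc (0 : ℝ) 1 →
      1 - z s = Complex.exp (-(Real.pi * I * (s * u)) + cc (s * u)) := by
    intro s hs
    rw [Complex.exp_add, exp_cc (hseg s hs), Complex.cos]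
    simp only [hz]
    have e1 : Complex.exp (-(2 * Real.pi * I * (s * u))) =
        Complex.exp (-(Real.pi * I * (s * u))) * Complex.exp (-(Real.pi * (s * u)) * I) := by
      rw [← Complex.exp_add]; congr 1; ring
    have e2 : (1 : ℂ) = Complex.exp (-(Real.pi * I * (s * u))) *
        Complex.exp (Real.pi * (s * u) * I) := by
      rw [← Complex.exp_add, ← Complex.exp_zero]; congr 1; ring
    rw [e1]
    linear_combination e2
  have hwd : ∀ s : ℝ, s ∈ Set.Icc (0 : ℝ) 1 →
      HasDerivAt (fun s : ℝ => -(Real.pi * I * ((s : ℂ) * u)) + cc (s * u))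
        (-(Real.pi * I * u) + -(Real.pi * Complex.tan (Real.pi * (s * u))) * u) s := by
    intro s hs
    have h1 := ((hsu s).const_mul (Real.pi * I)).neg
    have h2 : HasDerivAt (fun s : ℝ => cc ((s : ℂ) * u))
        (-(Real.pi * Complex.tan (Real.pi * (s * u))) * u) s :=
      HasDerivAt.comp_of_eq (h₂ := cc) s (cc_deriv (hseg s hs)) (hsu s) rfl
    exact h1.add h2
  have hccd : ∀ s : ℝ, s ∈ Set.Icc (0 : ℝ) 1 → HasDerivAt (fun s : ℝ => cc ((s : ℂ) * u))
        (-(Real.pi * Complex.tan (Real.pi * (s * u))) * u) s := fun s hs =>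
      HasDerivAt.comp_of_eq (h₂ := cc) s (cc_deriv (hseg s hs)) (hsu s) rfl
  have hCCd : ∀ s : ℝ, s ∈ Set.Icc (0 : ℝ) 1 → HasDerivAt (fun s : ℝ => CC ((s : ℂ) * u))
        (cc (s * u) * u) s := fun s hs =>
      HasDerivAt.comp_of_eq (h₂ := CC) s (CC_deriv (hseg s hs)) (hsu s) rfl
  have hre : ∀ {f : ℝ → ℂ} {f' : ℂ} {s : ℝ}, HasDerivAt f f' s →
      HasDerivAt (fun s => (f s).re) f'.re s := fun h => by
    have h2 := Complex.reCLM.hasFDerivAt.comp_hasDerivAt _ h
    exact h2
  have him : ∀ {f : ℝ → ℂ} {f' : ℂ} {s : ℝ}, HasDerivAt f f' s →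
      HasDerivAt (fun s => (f s).im) f'.im s := fun h => by
    have h2 := Complex.imCLM.hasFDerivAt.comp_hasDerivAt _ h
    exact h2
  set F : ℝ → ℝ := fun s => (CC (s * u)).re + s * u.im * (cc (s * u)).im -
    BW (z s) / (2 * Real.pi) with hF
  have hcont : ContinuousOn F (Set.Icc 0 1) := by
    intro s hs
    apply ContinuousAt.continuousWithinAt
    have c1 := (hre (hCCd s hs)).continuousAt
    have c2 := (him (hccd s hs)).continuousAt
    have c3 : ContinuousAt (fun s => BW (z s)) s :=
      ContinuousAt.comp (g := BW) (f := z) BW_continuous.continuousAt (hzd s).continuousAt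
    have c4 : ContinuousAt (fun s : ℝ => s * u.im) s := by fun_prop
    exact (c1.add (c4.mul c2)).sub (c3.div_const _)
  have hder : ∀ s ∈ Set.Ioo (0 : ℝ) 1, HasDerivAt F 0 s := by
    intro s hs
    have hs' : s ∈ Set.Icc (0 : ℝ) 1 := ⟨hs.1.le, hs.2.le⟩
    have hzim : (z s).im ≠ 0 := by
      have e : (z s).im = Real.exp (2 * Real.pi * (s * u.im)) * Real.sin (2 * Real.pi * (s * u.re)) := by
        simp only [hz]
        rw [Complex.neg_im, Complex.exp_im]
        have e1 : (-(2 * Real.pi * I * (s * u))).re = 2 * Real.pi * (s * u.im) := by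
          simp
        have e2 : (-(2 * Real.pi * I * (s * u))).im = -(2 * Real.pi * (s * u.re)) := by
          simp
        rw [e1, e2, Real.sin_neg]
        ring
      rw [e]
      apply mul_ne_zero (Real.exp_pos _).ne'
      have h1 := abs_lt.1 hu'
      rcases lt_or_gt_of_ne h0 with h | h
      · apply (Real.sin_neg_of_neg_of_neg_pi_lt _ _).ne
        · have : 0 < 2 * Real.pi * (s * (-u.re)) := by
            have : 0 < -u.re := by linarith
            have := hs.1
            positivity
          linarith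
        · have h2 : s * (-u.re) < 1 / 2 := by nlinarith [hs.1, hs.2]
          nlinarith
      · apply (Real.sin_pos_of_pos_of_lt_pi _ _).ne'
        · have := hs.1
          positivity
        · have h2 : s * u.re < 1 / 2 := by nlinarith [hs.1, hs.2]
          nlinarith
    have hz0 : z s ≠ 0 := by
      intro h; rw [h] at hzim; simp at hzim
    have b := BW_hasDerivAt (hzd s) hzim
    have hw1 : HasDerivAt (fun s => 1 - z s) (-(z s * (-(2 * Real.pi * I * u)))) s :=
      (hzd s).const_sub 1
    have hw2 : HasDerivAt (fun s => 1 - z s)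
        (Complex.exp (-(Real.pi * I * (s * u)) + cc (s * u)) *
          (-(Real.pi * I * u) + -(Real.pi * Complex.tan (Real.pi * (s * u))) * u)) s := by
      apply (hwd s hs').cexp.congr_of_eventuallyEq
      filter_upwards [Icc_mem_nhds hs.1 hs.2] with v hv
      exact hz1 v hv
    have hu1 := hw1.unique hw2
    have q1 : -(z s * (-(2 * Real.pi * I * u))) / (1 - z s) =
        -(Real.pi * I * u) + -(Real.pi * Complex.tan (Real.pi * (s * u))) * u := by
      rw [hu1, hz1 s hs', mul_div_cancel_left₀ _ (Complex.exp_ne_zero _)]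
    have q2 : z s * (-(2 * Real.pi * I * u)) / z s = -(2 * Real.pi * I * u) := by
      rw [mul_div_cancel_left₀ _ hz0]
    have q3 : Real.log ‖z s‖ = 2 * Real.pi * (s * u.im) := by
      simp only [hz, norm_neg, Complex.norm_exp, Real.log_exp]
      simp
    have q4 : Real.log ‖1 - z s‖ = Real.pi * (s * u.im) + (cc (s * u)).re := by
      rw [hz1 s hs', Complex.norm_exp, Real.log_exp]
      simp
    rw [q1, q2, q3, q4] at b
    have d1 := hre (hCCd s hs')
    have d2 := him (hccd s hs')
    have d4 : HasDerivAt (fun s : ℝ => s * u.im) u.im s := by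
      simpa using (hasDerivAt_id s).mul_const u.im
    have d := (d1.add (d4.mul d2)).sub (b.div_const (2 * Real.pi))
    refine d.congr_deriv ?_
    set T := -(Real.pi * Complex.tan (Real.pi * (s * u))) * u with hT
    have r1 : (-(Real.pi * I * u) + T).im = -(Real.pi * u.re) + T.im := by simp
    have r2 : (-(2 * Real.pi * I * u)).im = -(2 * Real.pi * u.re) := by simp
    rw [r1, r2, Complex.mul_re]
    field_simp
    ring
  obtain ⟨c, hc, hslope⟩ := exists_hasDerivAt_eq_slope F (fun _ => 0) one_pos hcont hder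
  have hF1 : F 1 = F 0 := by
    rw [sub_zero, div_one] at hslope
    linarith
  have hF0 : F 0 = 0 := by
    simp only [hF, hz]
    have e1 : CC (((0 : ℝ) : ℂ) * u) = 0 := by
      unfold CC; simp
    have e2 : -Complex.exp (-(2 * Real.pi * I * (((0 : ℝ) : ℂ) * u))) = ((-1 : ℝ) : ℂ) := by
      simp
    rw [e1, e2, BW_ofReal]
    simp
  rw [hF0] at hF1
  simp only [hF, hz, Complex.ofReal_one, one_mul] at hF1
  linarith

lemma gam_re {y t : ℂ} (hy : ‖y‖ < 1 / 200) (ht : ‖t - 1 / 4‖ ≤ 1 / 200) :
    (gam y t).re = GG y t / (2 * Real.pi) - t.im * (gamt y t).im - y.im * (gamy y t).im := by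
  have hpi := Real.pi_pos
  have hyr := abs_le.1 (Complex.abs_re_le_norm y)
  have htr := abs_le.1 (Complex.abs_re_le_norm (t - 1 / 4))
  have e4 : (t - 1 / 4).re = t.re - 1 / 4 := by simp
  rw [e4] at htr
  have h1 := CC_re (HS_add hy ht) (by
    rw [Complex.add_re]; intro h; linarith [htr.1, hyr.1])
  have h2 := CC_re (HS_sub hy ht) (by
    rw [Complex.sub_re]; intro h; linarith [htr.1, hyr.2])
  have h3 := CC_re (HS_half ht) (by
    have e5 : (t - 1 / 2).re = t.re - 1 / 2 := by simp
    rw [e5]; intro h; linarith [htr.2])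
  have e1 : -Complex.exp (-(2 * Real.pi * I * (t - 1 / 2))) =
      (Complex.exp (2 * Real.pi * I * t))⁻¹ := by
    rw [← Complex.exp_neg, show -(2 * Real.pi * I * (t - 1 / 2)) =
      -(2 * Real.pi * I * t) + Real.pi * I by ring, Complex.exp_add, Complex.exp_pi_mul_I]
    ring
  rw [e1, BW_inv] at h3
  have i3 : (t - 1 / 2).im = t.im := by simp
  unfold gam GG gamt gamy
  simp only [Complex.sub_re, Complex.add_re, Complex.sub_im, Complex.add_im, Complex.mul_re,
    Complex.mul_im, Complex.re_ofNat, Complex.im_ofNat, zero_mul, sub_zero, add_zero]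
  rw [h1, h2, h3, i3, Complex.add_im, Complex.sub_im]
  field_simp
  ring

theorem EV_re (n : ℕ) (a : ℕ → ℕ) (y t : ℕ → ℂ) (hn : 2 ≤ n) (ha : ∀ i, i < n → 1000 ≤ a i)
    (H : Crit n a y t) :
    Real.pi * (EV n a y t).re =
      1 / 2 * ∑ j ∈ range (n - 1), (GG (y j) (t j) + GG (y (j + 1)) (t j)) := by
  obtain ⟨m, rfl⟩ : ∃ m, n = m + 1 := ⟨n - 1, by omega⟩
  have hpi := Real.pi_pos
  rw [Nat.add_sub_cancel]
  have hsm : ∀ i, i < m + 1 → ‖y i‖ < 1 / 200 := fun i hi => by
    have := cj_small ha H hi 0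
    rwa [cj_even (by decide)] at this
  -- the sites
  have hsite : ∀ i, i < m + 1 →
      ((-1 : ℂ) ^ i * (Real.pi * I * a i * y i ^ 2 - 2 * Real.pi * I * y i)).re =
      (if i = 0 then 0 else (y i).im * (gamy (y i) (t (i - 1))).im) +
      (if i + 1 = m + 1 then 0 else (y i).im * (gamy (y i) (t i)).im) := by
    intro i hi
    have hs := H.site i hi
    have hs2 := congrArg Complex.im hs
    rw [Complex.add_im, Complex.add_im, Complex.zero_im] at hs2
    have e1 : ((-1 : ℂ) ^ i) = (((-1 : ℝ) ^ i : ℝ) : ℂ) := by push_cast; rfl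
    have e2 : ((-1 : ℂ) ^ i * (2 * Real.pi * I * (a i * y i - 1))).im =
        (-1 : ℝ) ^ i * (2 * Real.pi * (a i * (y i).re - 1)) := by
      rw [e1, Complex.im_ofReal_mul]
      simp
    have e3 : ((-1 : ℂ) ^ i * (Real.pi * I * a i * y i ^ 2 - 2 * Real.pi * I * y i)).re =
        -((y i).im * ((-1 : ℝ) ^ i * (2 * Real.pi * (a i * (y i).re - 1)))) := by
      rw [e1, Complex.re_ofReal_mul, pow_two (y i)]
      simp
      ring
    have e4 : (if i = 0 then (0 : ℂ) else gamy (y i) (t (i - 1))).im =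
        (if i = 0 then (0 : ℝ) else (gamy (y i) (t (i - 1))).im) := by
      split_ifs <;> simp
    have e5 : (if i + 1 = m + 1 then (0 : ℂ) else gamy (y i) (t i)).im =
        (if i + 1 = m + 1 then (0 : ℝ) else (gamy (y i) (t i)).im) := by
      split_ifs <;> simp
    rw [e2, e4, e5] at hs2
    rw [e3]
    have e6 : (-1 : ℝ) ^ i * (2 * Real.pi * (a i * (y i).re - 1)) =
        -((if i = 0 then (0 : ℝ) else (gamy (y i) (t (i - 1))).im) +
          (if i + 1 = m + 1 then (0 : ℝ) else (gamy (y i) (t i)).im)) := by linarith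
    rw [e6]
    split_ifs <;> ring
  have hsum1 : ∑ i ∈ range (m + 1), (if i = 0 then 0 else (y i).im * (gamy (y i) (t (i - 1))).im) =
      ∑ j ∈ range m, (y (j + 1)).im * (gamy (y (j + 1)) (t j)).im := by
    rw [Finset.sum_range_succ']
    simp
  have hsum2 : ∑ i ∈ range (m + 1),
      (if i + 1 = m + 1 then 0 else (y i).im * (gamy (y i) (t i)).im) =
      ∑ j ∈ range m, (y j).im * (gamy (y j) (t j)).im := by
    rw [Finset.sum_range_succ]
    simp only [if_true, add_zero]
    apply Finset.sum_congr rfl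
    intro j hj
    have := Finset.mem_range.1 hj
    rw [if_neg (by omega)]
  have hkern : ∀ j ∈ range m, ((gam (y j) (t j) + gam (y (j + 1)) (t j)).re : ℝ) =
      (GG (y j) (t j) + GG (y (j + 1)) (t j)) / (2 * Real.pi) -
        (y j).im * (gamy (y j) (t j)).im - (y (j + 1)).im * (gamy (y (j + 1)) (t j)).im := by
    intro j hj
    have hj' := Finset.mem_range.1 hj
    have hk := congrArg Complex.im (H.kern j (by omega))
    rw [Complex.add_im, Complex.zero_im] at hk
    rw [Complex.add_re, gam_re (hsm j (by omega)) (H.near_t j (by omega)),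
      gam_re (hsm (j + 1) (by omega)) (H.near_t j (by omega))]
    have hk2 : (gamt (y (j + 1)) (t j)).im = -(gamt (y j) (t j)).im := by linarith
    rw [hk2]
    ring
  have hEV : (EV (m + 1) a y t).re =
      ∑ i ∈ range (m + 1), ((-1 : ℂ) ^ i * (Real.pi * I * a i * y i ^ 2 - 2 * Real.pi * I * y i)).re +
        ∑ j ∈ range m, (gam (y j) (t j) + gam (y (j + 1)) (t j)).re := by
    unfold EV
    rw [Complex.add_re, Complex.re_sum, Complex.re_sum, Nat.add_sub_cancel]
  rw [hEV, Finset.sum_congr rfl (fun i hi => hsite i (Finset.mem_range.1 hi)),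
    Finset.sum_congr rfl hkern, Finset.sum_add_distrib, hsum1, hsum2, Finset.sum_sub_distrib,
    Finset.sum_sub_distrib, ← Finset.sum_div]
  field_simp
  ring

end Pool.Agent.Helper9.TF
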