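import Mathlib

/-!
# Elementary Gaussian estimates
-/

namespace Pool.Agent.Helper66.TF

open Complex MeasureTheory intervalIntegral Set

lemma norm_exp_sub_one (w : ℂ) : ‖Complex.exp w - 1‖ ≤ Real.exp ‖w‖ - 1 := by
  have := Complex.norm_exp_sub_sum_le_exp_norm_sub_sum w 1
  simpa using this

lemma gauss_int {b : ℝ} (hb : 0 < b) : Integrable (fun s : ℝ => Real.exp (-(b * s ^ 2))) := by
  have := integrable_exp_neg_mul_sq hb
  simpa using this

lemma gauss_val (b : ℝ) : ∫ s : ℝ, Real.exp (-(b * s ^ 2)) = Real.sqrt (Real.pi / b) := by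
  have := integral_gaussian b
  simpa using this

/-- truncated Gaussian from above -/
lemma gauss_upper {b s0 s1 : ℝ} (hb : 0 < b) (h : s0 ≤ s1) :
    ∫ s in s0..s1, Real.exp (-(b * s ^ 2)) ≤ Real.sqrt (Real.pi / b) := by
  rw [intervalIntegral.integral_of_le h, ← gauss_val]
  exact setIntegral_le_integral (gauss_int hb) (Filter.Eventually.of_forall fun s =>
    (Real.exp_pos _).le)

/-- truncated Gaussian from below -/
lemma gauss_lower {b δ s0 s1 : ℝ} (hb : 0 < b) (hδ : 0 ≤ δ) (h0 : s0 ≤ -δ) (h1 : δ ≤ s1) :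
    Real.sqrt (Real.pi / b) - Real.exp (-(b / 2 * δ ^ 2)) * Real.sqrt (Real.pi / (b / 2)) ≤
      ∫ s in s0..s1, Real.exp (-(b * s ^ 2)) := by
  have hb2 : 0 < b / 2 := by positivity
  rw [intervalIntegral.integral_of_le (by linarith), ← gauss_val, ← gauss_val,
    ← MeasureTheory.integral_const_mul, ← integral_sub (gauss_int hb) ((gauss_int hb2).const_mul _),
    ← MeasureTheory.integral_indicator measurableSet_Ioc]
  apply integral_mono ((gauss_int hb).sub ((gauss_int hb2).const_mul _))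
    ((gauss_int hb).indicator measurableSet_Ioc)
  intro s
  change Real.exp (-(b * s ^ 2)) - Real.exp (-(b / 2 * δ ^ 2)) * Real.exp (-(b / 2 * s ^ 2)) ≤ _
  by_cases hs : s ∈ Ioc s0 s1
  · rw [indicator_of_mem hs]
    have := Real.exp_pos (-(b / 2 * δ ^ 2))
    have := Real.exp_pos (-(b / 2 * s ^ 2))
    nlinarith [mul_pos (Real.exp_pos (-(b / 2 * δ ^ 2))) (Real.exp_pos (-(b / 2 * s ^ 2)))]
  · rw [indicator_of_notMem hs, ← Real.exp_add]
    have hs2 : δ ^ 2 ≤ s ^ 2 := by
      rw [mem_Ioc, not_and_or, not_lt, not_le] at hs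
      rcases hs with h | h
      · nlinarith
      · nlinarith
    have : Real.exp (-(b * s ^ 2)) ≤ Real.exp (-(b / 2 * δ ^ 2) + -(b / 2 * s ^ 2)) := by
      apply Real.exp_le_exp.2
      nlinarith
    linarith

/-- the first absolute moment -/
lemma gauss_abs {b s0 s1 K : ℝ} (hb : 1 < b) (hK : 0 < K) (h : s0 ≤ s1) :
    ∫ s in s0..s1, Real.exp (-(b * K * s ^ 2)) * |s| ≤
      Real.sqrt (Real.pi / ((b - 1) * K)) / Real.sqrt K := by
  have hK' : 0 < Real.sqrt K := Real.sqrt_pos.2 hK
  have h1 : ∫ s in s0..s1, Real.exp (-(b * K * s ^ 2)) * |s| ≤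
      ∫ s in s0..s1, Real.exp (-((b - 1) * K * s ^ 2)) / Real.sqrt K := by
    apply intervalIntegral.integral_mono_on h
    · apply Continuous.intervalIntegrable; fun_prop
    · apply Continuous.intervalIntegrable; fun_prop
    · intro s _
      have h2 : Real.sqrt K * |s| ≤ Real.exp (K * s ^ 2) := by
        have h3 := Real.add_one_le_exp (K * s ^ 2)
        have h4 : (Real.sqrt K * |s|) ^ 2 = K * s ^ 2 := by
          rw [mul_pow, Real.sq_sqrt hK.le, sq_abs]
        nlinarith [sq_nonneg (Real.sqrt K * |s| - 1)]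
      rw [le_div_iff₀ hK']
      have h5 : Real.exp (-((b - 1) * K * s ^ 2)) =
          Real.exp (-(b * K * s ^ 2)) * Real.exp (K * s ^ 2) := by
        rw [← Real.exp_add]; congr 1; ring
      rw [h5]
      have := Real.exp_pos (-(b * K * s ^ 2))
      nlinarith
  refine h1.trans ?_
  rw [intervalIntegral.integral_div]
  gcongr
  exact gauss_upper (mul_pos (by linarith) hK) h

end Pool.Agent.Helper66.TF
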