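import Pool.Agent.Helper66.TF.Window
import Pool.Agent.Helper66.TF.Gauss
import Pool.Agent.Helper66.TF.Crit

/-!
# The Laplace method for the sum over `m`
-/

namespace Pool.Agent.Helper66.TF

open Complex MeasureTheory intervalIntegral Set
open Pool.Agent.Helper9.TB Pool.Agent.Helper9.TF

/-- the window as a range -/
lemma Wd_sum {r : ℝ} (hr : 0 < r) (hr1 : r ≤ 1 / 20) {N : ℕ} (hN : 0 < N) :
    ∃ m0 n : ℕ, n ≤ N ∧ (∀ g : ℕ → ℂ, ∑ m ∈ Wd N r, g m = ∑ j ∈ Finset.range n, g (m0 + j)) ∧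
      1 / 4 - r / 2 - 1 / (2 * N) ≤ ((m0 : ℝ) - 1 / 2) / N ∧
      ((m0 : ℝ) - 1 / 2) / N ≤ 1 / 4 - r / 2 + 1 / (2 * N) ∧
      1 / 4 + r / 2 - 1 / (2 * N) ≤ ((m0 : ℝ) + n - 1 / 2) / N ∧
      ((m0 : ℝ) + n - 1 / 2) / N ≤ 1 / 4 + r / 2 + 1 / (2 * N) := by
  have hN0 : (0 : ℝ) < N := by exact_mod_cast hN
  set A : ℝ := N * (1 / 4 - r / 2) with hA
  set B : ℝ := N * (1 / 4 + r / 2) with hB
  have hA0 : 0 ≤ A := by rw [hA]; apply mul_nonneg hN0.le; linarith
  have hB0 : 0 ≤ B := by rw [hB]; apply mul_nonneg hN0.le; linarith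
  have hAB : A ≤ B := by rw [hA, hB]; nlinarith
  have hBN : B < N := by rw [hB]; nlinarith
  set m0 := ⌈A⌉₊ with hm0
  set m1 := ⌊B⌋₊ with hm1
  have c1 : A ≤ m0 := Nat.le_ceil A
  have c2 : (m0 : ℝ) < A + 1 := Nat.ceil_lt_add_one hA0
  have c3 : (m1 : ℝ) ≤ B := Nat.floor_le hB0
  have c4 : B < m1 + 1 := Nat.lt_floor_add_one B
  have hm : m0 ≤ m1 + 1 := by
    have h1 : (m0 : ℝ) < m1 + 1 + 1 := by linarith
    have h2 : m0 < m1 + 1 + 1 := by exact_mod_cast h1
    omega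
  have hm1N : m1 < N := by
    have : (m1 : ℝ) < N := by linarith
    exact_mod_cast this
  have hWd : Wd N r = Finset.Ico m0 (m1 + 1) := by
    ext m
    unfold Wd
    rw [Finset.mem_filter, Finset.mem_range, Finset.mem_Ico, abs_le]
    have e1 : -(r / 2) ≤ (m : ℝ) / N - 1 / 4 ↔ A ≤ m := by
      rw [hA]
      constructor
      · intro h
        have : (1 / 4 - r / 2) ≤ (m : ℝ) / N := by linarith
        rw [le_div_iff₀ hN0] at this
        linarith
      · intro h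
        have : (1 / 4 - r / 2) ≤ (m : ℝ) / N := by
          rw [le_div_iff₀ hN0]; linarith
        linarith
    have e2 : (m : ℝ) / N - 1 / 4 ≤ r / 2 ↔ (m : ℝ) ≤ B := by
      rw [hB]
      constructor
      · intro h
        have : (m : ℝ) / N ≤ 1 / 4 + r / 2 := by linarith
        rw [div_le_iff₀ hN0] at this
        linarith
      · intro h
        have : (m : ℝ) / N ≤ 1 / 4 + r / 2 := by
          rw [div_le_iff₀ hN0]; linarith
        linarith
    rw [e1, e2, ← Nat.ceil_le, ← Nat.le_floor_iff hB0]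
    constructor
    · rintro ⟨h1, h2, h3⟩
      exact ⟨h2, by omega⟩
    · rintro ⟨h1, h2⟩
      exact ⟨by omega, h1, by omega⟩
  have hn : ((m1 + 1 - m0 : ℕ) : ℝ) = m1 + 1 - m0 := by
    rw [Nat.cast_sub hm]; push_cast; ring
  refine ⟨m0, m1 + 1 - m0, by omega, ?_, ?_, ?_, ?_, ?_⟩
  · intro g
    rw [hWd, Finset.sum_Ico_eq_sum_range]
  · rw [le_div_iff₀ hN0]
    have : (1 / 4 - r / 2 - 1 / (2 * N)) * N = A - 1 / 2 := by rw [hA]; field_simp
    linarith
  · rw [div_le_iff₀ hN0]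
    have : (1 / 4 - r / 2 + 1 / (2 * N)) * N = A + 1 / 2 := by rw [hA]; field_simp
    linarith
  · rw [hn, le_div_iff₀ hN0]
    have : (1 / 4 + r / 2 - 1 / (2 * N)) * N = B - 1 / 2 := by rw [hB]; field_simp
    linarith
  · rw [hn, div_le_iff₀ hN0]
    have : (1 / 4 + r / 2 + 1 / (2 * N)) * N = B + 1 / 2 := by rw [hB]; field_simp
    linarith

section point

variable {r : ℝ} {T : ℂ → ℂ} {τ : ℂ}

/-- real part of the exponent -/
lemma re_le (hT : DifferentiableOn ℂ T (Metric.ball (1 / 4) r))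
    (hS : LipS (1 / 4) r 4 1 (deriv T)) (hτ : τ ∈ Metric.ball (1 / 4 : ℂ) r)
    (h0 : deriv T τ = 0) {z : ℂ} (hz : z ∈ Metric.ball (1 / 4 : ℂ) r) :
    (T z - T τ).re ≤ -(4 * Real.pi - 1) * (z.re - τ.re) ^ 2 +
      (4 * Real.pi + 1) * (z.im - τ.im) ^ 2 := by
  have h1 := quad hT hS hτ hz h0
  have h2 := (re_le_norm _).trans h1
  have h3 : (T z - T τ + 4 * Real.pi * (z - τ) ^ 2).re = (T z - T τ).re +
      4 * Real.pi * ((z.re - τ.re) ^ 2 - (z.im - τ.im) ^ 2) := by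
    rw [add_re]
    congr 1
    rw [show (4 * (Real.pi : ℂ)) = ((4 * Real.pi : ℝ) : ℂ) by push_cast; ring, re_ofReal_mul, sq,
      mul_re, sub_re, sub_im]
    ring
  have h4 : ‖z - τ‖ ^ 2 = (z.re - τ.re) ^ 2 + (z.im - τ.im) ^ 2 := by
    rw [Complex.sq_norm, normSq_apply, sub_re, sub_im]; ring
  rw [h3, h4] at h2
  linarith

/-- comparison with the Gaussian on the horizontal line through the critical point -/
lemma line_cmp (hT : DifferentiableOn ℂ T (Metric.ball (1 / 4) r))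
    (hS : LipS (1 / 4) r 4 1 (deriv T)) (hτ : τ ∈ Metric.ball (1 / 4 : ℂ) r)
    (h0 : deriv T τ = 0) (N : ℕ) {s : ℝ} (hs : τ + s ∈ Metric.ball (1 / 4 : ℂ) r) :
    ‖exp (N * (T (τ + s) - T τ)) - (Real.exp (-(4 * Real.pi * N * s ^ 2)) : ℂ)‖ ≤
      Real.exp (-((4 * Real.pi - 1) * N * s ^ 2)) - Real.exp (-(4 * Real.pi * N * s ^ 2)) := by
  have h1 := quad hT hS hτ hs h0
  rw [add_sub_cancel_left, norm_real, Real.norm_eq_abs, sq_abs] at h1
  set E := T (τ + s) - T τ + 4 * Real.pi * (s : ℂ) ^ 2 with hE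
  have e : exp (N * (T (τ + s) - T τ)) =
      (Real.exp (-(4 * Real.pi * N * s ^ 2)) : ℂ) * exp (N * E) := by
    rw [ofReal_exp, ← exp_add]
    congr 1
    rw [hE]
    push_cast
    ring
  have h2 : exp (N * (T (τ + s) - T τ)) - (Real.exp (-(4 * Real.pi * N * s ^ 2)) : ℂ) =
      (Real.exp (-(4 * Real.pi * N * s ^ 2)) : ℂ) * (exp (N * E) - 1) := by
    rw [e]; ring
  have h3 : ‖(N : ℂ) * E‖ ≤ N * s ^ 2 := by
    rw [norm_mul, Complex.norm_natCast]
    have : (0 : ℝ) ≤ N := Nat.cast_nonneg N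
    gcongr
  have h4 := norm_exp_sub_one (N * E)
  have h5 : Real.exp (-((4 * Real.pi - 1) * N * s ^ 2)) =
      Real.exp (-(4 * Real.pi * N * s ^ 2)) * Real.exp (N * s ^ 2) := by
    rw [← Real.exp_add]; congr 1; ring
  rw [h2, norm_mul, norm_real, Real.norm_of_nonneg (Real.exp_pos _).le, h5]
  have h6 : Real.exp ‖(N : ℂ) * E‖ ≤ Real.exp (N * s ^ 2) := Real.exp_le_exp.2 h3
  have h7 := Real.exp_pos (-(4 * Real.pi * N * s ^ 2))
  calc Real.exp (-(4 * Real.pi * N * s ^ 2)) * ‖exp (N * E) - 1‖ ≤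
      Real.exp (-(4 * Real.pi * N * s ^ 2)) * (Real.exp (N * s ^ 2) - 1) := by
        apply mul_le_mul_of_nonneg_left _ h7.le
        linarith
    _ = _ := by ring

lemma line_norm (hT : DifferentiableOn ℂ T (Metric.ball (1 / 4) r))
    (hS : LipS (1 / 4) r 4 1 (deriv T)) (hτ : τ ∈ Metric.ball (1 / 4 : ℂ) r)
    (h0 : deriv T τ = 0) (N : ℕ) {s : ℝ} (hs : τ + s ∈ Metric.ball (1 / 4 : ℂ) r) :
    ‖exp (N * (T (τ + s) - T τ))‖ ≤ Real.exp (-((4 * Real.pi - 1) * N * s ^ 2)) := by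
  have h1 := re_le hT hS hτ h0 hs
  rw [norm_exp]
  apply Real.exp_le_exp.2
  rw [show ((N : ℂ) * (T (τ + s) - T τ)) = ((N : ℝ) : ℂ) * (T (τ + s) - T τ) by push_cast; rfl,
    re_ofReal_mul]
  rw [add_re, ofReal_re, add_im, ofReal_im, add_sub_cancel_left, add_zero, sub_self] at h1
  have : (0 : ℝ) ≤ N := Nat.cast_nonneg N
  nlinarith

lemma J_int (hT : DifferentiableOn ℂ T (Metric.ball (1 / 4) r)) {B : ℂ → ℂ}
    (hB : DifferentiableOn ℂ B (Metric.ball (1 / 4) r)) (N : ℕ) {s0 s1 : ℝ} (h01 : s0 ≤ s1)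
    (hs : ∀ s : ℝ, s0 ≤ s → s ≤ s1 → τ + s ∈ Metric.ball (1 / 4 : ℂ) r) :
    ContinuousOn (fun s : ℝ => exp (N * (T (τ + s) - T τ)) * B (τ + s)) (uIcc s0 s1) := by
  have hc : ContinuousOn (fun s : ℝ => τ + (s : ℂ)) (uIcc s0 s1) := by fun_prop
  have hm : MapsTo (fun s : ℝ => τ + (s : ℂ)) (uIcc s0 s1) (Metric.ball (1 / 4 : ℂ) r) := by
    intro s hs'
    rw [uIcc_of_le h01] at hs'
    exact hs s hs'.1 hs'.2
  have h1 := hT.continuousOn.comp hc hm
  have h2 := hB.continuousOn.comp hc hm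
  apply ContinuousOn.mul _ h2
  apply Complex.continuous_exp.comp_continuousOn
  exact continuousOn_const.mul (h1.sub continuousOn_const)

/-- the main integral: bounds -/
lemma J_bounds (hT : DifferentiableOn ℂ T (Metric.ball (1 / 4) r))
    (hS : LipS (1 / 4) r 4 1 (deriv T)) (hτ : τ ∈ Metric.ball (1 / 4 : ℂ) r)
    (h0 : deriv T τ = 0) {N : ℕ} (hN : 0 < N) {s0 s1 δ : ℝ} (hδ : 0 ≤ δ) (hs0 : s0 ≤ -δ)
    (hs1 : δ ≤ s1)
    (hs : ∀ s : ℝ, s0 ≤ s → s ≤ s1 → τ + s ∈ Metric.ball (1 / 4 : ℂ) r)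
    (hsmall : Real.exp (-(2 * Real.pi * N * δ ^ 2)) ≤ 1 / 40) :
    2 / 5 / Real.sqrt N ≤ ‖∫ s in s0..s1, exp (N * (T (τ + s) - T τ))‖ ∧
      ‖∫ s in s0..s1, exp (N * (T (τ + s) - T τ))‖ ≤ 1 / Real.sqrt N := by
  have hN0 : (0 : ℝ) < N := by exact_mod_cast hN
  have hpi := Real.pi_gt_three
  have hpi0 := Real.pi_pos
  have hsq : 0 < Real.sqrt N := Real.sqrt_pos.2 hN0
  have h01 : s0 ≤ s1 := by linarith
  have hc : ContinuousOn (fun s : ℝ => exp (N * (T (τ + s) - T τ))) (uIcc s0 s1) := by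
    have := J_int hT (B := fun _ => 1) (differentiableOn_const 1) N h01 hs
    simpa using this
  have hg1 : Real.sqrt (Real.pi / ((4 * Real.pi - 1) * N)) ≤ 11 / 20 / Real.sqrt N := by
    have e : Real.pi / ((4 * Real.pi - 1) * N) = Real.pi / (4 * Real.pi - 1) / N := by
      rw [div_div]
    rw [e, Real.sqrt_div (div_nonneg hpi0.le (by linarith))]
    gcongr
    rw [Real.sqrt_le_left (by norm_num), div_le_iff₀ (by linarith)]
    nlinarith
  have hup : ∫ s in s0..s1, Real.exp (-((4 * Real.pi - 1) * N * s ^ 2)) ≤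
      11 / 20 / Real.sqrt N := (gauss_upper (by nlinarith) h01).trans hg1
  constructor
  · have hlow := gauss_lower (b := 4 * Real.pi * N) (by positivity) hδ hs0 hs1
    have e1 : Real.sqrt (Real.pi / (4 * Real.pi * N)) = 1 / 2 / Real.sqrt N := by
      have : Real.pi / (4 * Real.pi * N) = (1 / 2) ^ 2 / N := by field_simp; norm_num
      rw [this, Real.sqrt_div (by positivity), Real.sqrt_sq (by norm_num)]
    have e2 : Real.sqrt (Real.pi / (4 * Real.pi * N / 2)) ≤ 1 / Real.sqrt N := by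
      have : Real.pi / (4 * Real.pi * N / 2) = (1 / 2) / N := by field_simp; norm_num
      rw [this, Real.sqrt_div (by norm_num)]
      gcongr
      rw [Real.sqrt_le_left (by norm_num)]
      norm_num
    have e3 : Real.exp (-(4 * Real.pi * N / 2 * δ ^ 2)) ≤ 1 / 40 := by
      have : -(4 * Real.pi * N / 2 * δ ^ 2) = -(2 * Real.pi * N * δ ^ 2) := by ring
      rw [this]; exact hsmall
    have e4 : Real.exp (-(4 * Real.pi * N / 2 * δ ^ 2)) *
        Real.sqrt (Real.pi / (4 * Real.pi * N / 2)) ≤ 1 / 40 * (1 / Real.sqrt N) :=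
      mul_le_mul e3 e2 (Real.sqrt_nonneg _) (by norm_num)
    have hG : Continuous (fun s : ℝ => Real.exp (-(4 * Real.pi * N * s ^ 2))) := by fun_prop
    have hG1 : Continuous (fun s : ℝ => Real.exp (-((4 * Real.pi - 1) * N * s ^ 2))) := by
      fun_prop
    have hdiff : ‖(∫ s in s0..s1, exp (N * (T (τ + s) - T τ))) -
        ((∫ s in s0..s1, Real.exp (-(4 * Real.pi * N * s ^ 2)) : ℝ) : ℂ)‖ ≤
        (∫ s in s0..s1, Real.exp (-((4 * Real.pi - 1) * N * s ^ 2))) -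
          ∫ s in s0..s1, Real.exp (-(4 * Real.pi * N * s ^ 2)) := by
      rw [← intervalIntegral.integral_ofReal, ← intervalIntegral.integral_sub
        hc.intervalIntegrable (by
          apply Continuous.intervalIntegrable
          exact Complex.continuous_ofReal.comp hG),
        ← intervalIntegral.integral_sub (hG1.intervalIntegrable _ _) (hG.intervalIntegrable _ _)]
      apply intervalIntegral.norm_integral_le_of_norm_le h01
      · apply Filter.Eventually.of_forall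
        intro s hs'
        exact line_cmp hT hS hτ h0 N (hs s hs'.1.le hs'.2)
      · exact (hG1.sub hG).intervalIntegrable _ _
    set J := ∫ s in s0..s1, exp (N * (T (τ + s) - T τ))
    set G := ∫ s in s0..s1, Real.exp (-(4 * Real.pi * N * s ^ 2))
    have hG0 : 1 / 2 / Real.sqrt N - 1 / 40 * (1 / Real.sqrt N) ≤ G := by
      rw [e1] at hlow
      linarith
    have h5 : G ≤ ‖(G : ℂ)‖ := by rw [norm_real]; exact le_abs_self _
    have h6 : ‖(G : ℂ)‖ - ‖J‖ ≤ ‖J - G‖ := by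
      rw [norm_sub_rev]; exact norm_sub_norm_le _ _
    have h7 : 2 / 5 / Real.sqrt N ≤ 2 * (1 / 2 / Real.sqrt N - 1 / 40 * (1 / Real.sqrt N)) -
        11 / 20 / Real.sqrt N := by
      have : 2 * (1 / 2 / Real.sqrt N - 1 / 40 * (1 / Real.sqrt N)) - 11 / 20 / Real.sqrt N =
          2 / 5 / Real.sqrt N := by ring
      rw [this]
    linarith
  · have h2 : ‖∫ s in s0..s1, exp (N * (T (τ + s) - T τ))‖ ≤
        ∫ s in s0..s1, Real.exp (-((4 * Real.pi - 1) * N * s ^ 2)) := by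
      apply intervalIntegral.norm_integral_le_of_norm_le h01
      · apply Filter.Eventually.of_forall
        intro s hs'
        exact line_norm hT hS hτ h0 N (hs s hs'.1.le hs'.2)
      · apply Continuous.intervalIntegrable; fun_prop
    refine h2.trans (hup.trans ?_)
    gcongr
    norm_num

/-- the main integral with an amplitude -/
lemma J_ratio (hT : DifferentiableOn ℂ T (Metric.ball (1 / 4) r))
    (hS : LipS (1 / 4) r 4 1 (deriv T)) (hτ : τ ∈ Metric.ball (1 / 4 : ℂ) r)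
    (h0 : deriv T τ = 0) {N : ℕ} (hN : 0 < N) {s0 s1 L : ℝ} (h01 : s0 ≤ s1) (hL : 0 ≤ L)
    (hs : ∀ s : ℝ, s0 ≤ s → s ≤ s1 → τ + s ∈ Metric.ball (1 / 4 : ℂ) r) {B : ℂ → ℂ}
    (hB : DifferentiableOn ℂ B (Metric.ball (1 / 4) r))
    (hBL : ∀ s : ℝ, s0 ≤ s → s ≤ s1 → ‖B (τ + s) - B τ‖ ≤ L * |s|) :
    ‖(∫ s in s0..s1, exp (N * (T (τ + s) - T τ)) * B (τ + s)) -
      B τ * ∫ s in s0..s1, exp (N * (T (τ + s) - T τ))‖ ≤ L / N := by
  have hN0 : (0 : ℝ) < N := by exact_mod_cast hN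
  have hpi := Real.pi_gt_three
  have hsq : 0 < Real.sqrt N := Real.sqrt_pos.2 hN0
  have hc1 := J_int (τ := τ) hT hB N h01 hs
  have hc : ContinuousOn (fun s : ℝ => exp (N * (T (τ + s) - T τ))) (uIcc s0 s1) := by
    have := J_int hT (B := fun _ => 1) (differentiableOn_const 1) N h01 hs
    simpa using this
  have hc2 : ContinuousOn (fun s : ℝ => B τ * exp (N * (T (τ + s) - T τ))) (uIcc s0 s1) :=
    continuousOn_const.mul hc
  rw [← intervalIntegral.integral_const_mul, ← intervalIntegral.integral_sub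
    hc1.intervalIntegrable hc2.intervalIntegrable]
  have h1 : ‖∫ s in s0..s1, (exp (N * (T (τ + s) - T τ)) * B (τ + s) -
      B τ * exp (N * (T (τ + s) - T τ)))‖ ≤
      ∫ s in s0..s1, L * (Real.exp (-((4 * Real.pi - 1) * N * s ^ 2)) * |s|) := by
    apply intervalIntegral.norm_integral_le_of_norm_le h01
    · apply Filter.Eventually.of_forall
      intro s hs'
      have e : exp (N * (T (τ + s) - T τ)) * B (τ + s) - B τ * exp (N * (T (τ + s) - T τ)) =
          exp (N * (T (τ + s) - T τ)) * (B (τ + s) - B τ) := by ring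
      rw [e, norm_mul]
      calc ‖exp (N * (T (τ + s) - T τ))‖ * ‖B (τ + s) - B τ‖ ≤
          Real.exp (-((4 * Real.pi - 1) * N * s ^ 2)) * (L * |s|) := by
            apply mul_le_mul (line_norm hT hS hτ h0 N (hs s hs'.1.le hs'.2))
              (hBL s hs'.1.le hs'.2) (norm_nonneg _) (Real.exp_pos _).le
        _ = _ := by ring
    · apply Continuous.intervalIntegrable; fun_prop
  refine h1.trans ?_
  rw [intervalIntegral.integral_const_mul]
  have h2 := gauss_abs (b := 4 * Real.pi - 1) (K := N) (s0 := s0) (s1 := s1) (by linarith) hN0 h01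
  have h3 : Real.sqrt (Real.pi / ((4 * Real.pi - 1 - 1) * N)) / Real.sqrt N ≤ 1 / N := by
    rw [← Real.sqrt_div (by apply div_nonneg (by linarith); nlinarith)]
    rw [Real.sqrt_le_left (by positivity), div_div, div_le_iff₀ (by nlinarith [mul_pos hN0 hN0])]
    have : (1 / (N : ℝ)) ^ 2 * ((4 * Real.pi - 1 - 1) * N * N) = 4 * Real.pi - 2 := by
      field_simp; ring
    rw [this]; linarith
  have h4 := mul_le_mul_of_nonneg_left (h2.trans h3) hL
  calc L * ∫ s in s0..s1, Real.exp (-((4 * Real.pi - 1) * N * s ^ 2)) * |s| ≤ L * (1 / N) := h4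
    _ = L / N := by ring

end point

end Pool.Agent.Helper66.TF
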