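import Pool.Agent.Helper66.TF.Cell

/-!
# Sums over a window of consecutive integers
-/

namespace Pool.Agent.Helper66.TF

open Complex MeasureTheory intervalIntegral Set
open Pool.Agent.Helper9.TB

/-- window of consecutive integers -/
theorem window {f : ℂ → ℂ} {U : Set ℂ} (hU : IsOpen U) (hf : DifferentiableOn ℂ f U) {h v M : ℝ}
    (hh : 0 < h) (hq : Real.exp (-(2 * Real.pi * h)) ≤ 1 / 2) (hv1 : -h ≤ v) (hv2 : v ≤ h)
    (m0 : ℕ) (n : ℕ)
    (hsub : ∀ z : ℂ, (m0 : ℝ) - 1 / 2 ≤ z.re → z.re ≤ m0 + n - 1 / 2 → |z.im| ≤ h → z ∈ U)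
    (hM : ∀ z : ℂ, (m0 : ℝ) - 1 / 2 ≤ z.re → z.re ≤ m0 + n - 1 / 2 → |z.im| = h → ‖f z‖ ≤ M) :
    ‖∑ j ∈ Finset.range n, f ((m0 + j : ℕ) : ℂ) -
      (∫ x in ((m0 : ℝ) - 1 / 2)..(m0 + n - 1 / 2), f (x + v * I)) -
      (PT f h v (m0 + n - 1 / 2) - PT f h v (m0 - 1 / 2))‖ ≤
      n * (4 * Real.exp (-(2 * Real.pi * h)) * M) := by
  induction n with
  | zero => simp
  | succ n ih =>
    have hc : ((n + 1 : ℕ) : ℝ) = n + 1 := by push_cast; ring
    rw [hc] at hsub hM ⊢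
    have ih' := ih (fun z h1 h2 h3 => hsub z h1 (by linarith) h3)
      (fun z h1 h2 h3 => hM z h1 (by linarith) h3)
    have hn : (0 : ℝ) ≤ n := Nat.cast_nonneg n
    have hcell := cell hU hf (m := m0 + n) (v := v) (M := M) hh hq hv1 hv2
      (fun z h1 h2 => hsub z (by linarith [(abs_le.1 h1).1]) (by linarith [(abs_le.1 h1).2]) h2)
      (fun z h1 h2 => hM z (by linarith [(abs_le.1 h1).1]) (by linarith [(abs_le.1 h1).2]) h2)
    have hint : ∀ a b : ℝ, (m0 : ℝ) - 1 / 2 ≤ a → a ≤ b → b ≤ m0 + (n + 1) - 1 / 2 →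
        IntervalIntegrable (fun x : ℝ => f (x + v * I)) volume a b := by
      intro a b ha hab hb
      apply ContinuousOn.intervalIntegrable
      apply hf.continuousOn.comp (by fun_prop)
      intro x hx
      rw [uIcc_of_le hab] at hx
      apply hsub
      · rw [re_pt]; linarith [hx.1]
      · rw [re_pt]; linarith [hx.2]
      · rw [im_pt, abs_le]; exact ⟨hv1, hv2⟩
    have hadd := intervalIntegral.integral_add_adjacent_intervals
      (hint (m0 - 1 / 2) (m0 + n - 1 / 2) le_rfl (by linarith) (by linarith))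
      (hint (m0 + n - 1 / 2) (m0 + (n + 1) - 1 / 2) (by linarith) (by linarith) le_rfl)
    rw [show (m0 : ℝ) + n + 1 / 2 = m0 + (n + 1) - 1 / 2 by ring] at hcell
    rw [Finset.sum_range_succ, ← hadd]
    have e : ((m0 + n : ℕ) : ℂ) = (((m0 : ℝ) + n : ℝ) : ℂ) := by push_cast; ring
    rw [e]
    have key := norm_add_le (∑ j ∈ Finset.range n, f ((m0 + j : ℕ) : ℂ) -
      (∫ x in ((m0 : ℝ) - 1 / 2)..(m0 + n - 1 / 2), f (x + v * I)) -
      (PT f h v (m0 + n - 1 / 2) - PT f h v (m0 - 1 / 2)))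
      (f (((m0 : ℝ) + n : ℝ) : ℂ) -
        (∫ x in ((m0 : ℝ) + n - 1 / 2)..(m0 + (n + 1) - 1 / 2), f (x + v * I)) -
      (PT f h v (m0 + (n + 1) - 1 / 2) - PT f h v (m0 + n - 1 / 2)))
    refine le_trans (le_of_eq ?_) (key.trans ?_)
    · congr 1
      ring
    · linarith

/-- scaled version -/
theorem window_scaled {F : ℂ → ℂ} {U : Set ℂ} (hU : IsOpen U) (hF : DifferentiableOn ℂ F U)
    {N : ℕ} (hN : 0 < N) {h v Mh Mv : ℝ} (hh : 0 < h)
    (hq : Real.exp (-(2 * Real.pi * (N * h))) ≤ 1 / 2) (hv1 : -h ≤ v) (hv2 : v ≤ h) (m0 n : ℕ)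
    (hsub : ∀ z : ℂ, ((m0 : ℝ) - 1 / 2) / N ≤ z.re → z.re ≤ (m0 + n - 1 / 2) / N →
      |z.im| ≤ h → z ∈ U)
    (hMh : ∀ z : ℂ, ((m0 : ℝ) - 1 / 2) / N ≤ z.re → z.re ≤ (m0 + n - 1 / 2) / N →
      |z.im| = h → ‖F z‖ ≤ Mh)
    (hMv : ∀ z : ℂ, (z.re = ((m0 : ℝ) - 1 / 2) / N ∨ z.re = (m0 + n - 1 / 2) / N) →
      |z.im| ≤ h → ‖F z‖ ≤ Mv) :
    ‖∑ j ∈ Finset.range n, F ((m0 + j : ℕ) / N) -
      N * (∫ x in (((m0 : ℝ) - 1 / 2) / N)..((m0 + n - 1 / 2) / N), F (x + v * I))‖ ≤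
      n * (4 * Real.exp (-(2 * Real.pi * (N * h))) * Mh) + 4 * (N * h) * Mv := by
  have hN0 : (0 : ℝ) < N := by exact_mod_cast hN
  have hNC : (N : ℂ) ≠ 0 := by exact_mod_cast hN.ne'
  set f : ℂ → ℂ := fun w => F (w / N) with hf
  set V : Set ℂ := (fun w : ℂ => w / N) ⁻¹' U with hV
  have hVo : IsOpen V := hU.preimage (by fun_prop)
  have hfd : DifferentiableOn ℂ f V := by
    have hg : DifferentiableOn ℂ (fun w : ℂ => w / N) V := by fun_prop
    exact hF.comp hg (fun w hw => hw)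
  have hre : ∀ z : ℂ, (z / N).re = z.re / N := fun z => by
    rw [show (N : ℂ) = ((N : ℝ) : ℂ) by push_cast; rfl, div_ofReal_re]
  have him : ∀ z : ℂ, (z / N).im = z.im / N := fun z => by
    rw [show (N : ℂ) = ((N : ℝ) : ℂ) by push_cast; rfl, div_ofReal_im]
  have habs : ∀ z : ℂ, |(z / N).im| = |z.im| / N := fun z => by
    rw [him, abs_div, abs_of_pos hN0]
  have hw := window hVo hfd (h := N * h) (v := N * v) (M := Mh) (by positivity) hq
    (by nlinarith) (by nlinarith) m0 n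
    (fun z h1 h2 h3 => hsub (z / N) (by rw [hre]; gcongr) (by rw [hre]; gcongr)
      (by rw [habs, div_le_iff₀ hN0]; linarith))
    (fun z h1 h2 h3 => hMh (z / N) (by rw [hre]; gcongr) (by rw [hre]; gcongr)
      (by rw [habs, h3]; field_simp))
  have hP : ∀ u : ℝ, (u = (m0 : ℝ) - 1 / 2 ∨ u = m0 + n - 1 / 2) →
      ‖PT f (N * h) (N * v) u‖ ≤ 2 * (N * h) * Mv := by
    intro u hu
    apply PT_bound (by nlinarith) (by nlinarith)
    intro y hy
    apply hMv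
    · rw [hre, re_pt]
      rcases hu with h | h
      · left; rw [h]
      · right; rw [h]
    · rw [habs, im_pt, div_le_iff₀ hN0]; linarith
  have hI : (∫ x in ((m0 : ℝ) - 1 / 2)..(m0 + n - 1 / 2), f (x + (N * v : ℝ) * I)) =
      N * (∫ x in (((m0 : ℝ) - 1 / 2) / N)..((m0 + n - 1 / 2) / N), F (x + v * I)) := by
    have h1 := intervalIntegral.integral_comp_div (a := (m0 : ℝ) - 1 / 2) (b := m0 + n - 1 / 2)
      (fun x : ℝ => F (x + v * I)) hN0.ne'
    rw [real_smul] at h1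
    push_cast at h1 ⊢
    rw [← h1]
    apply intervalIntegral.integral_congr
    intro x _
    simp only [hf]
    congr 1
    field_simp
  rw [hI] at hw
  have p1 := hP (m0 + n - 1 / 2) (Or.inr rfl)
  have p2 := hP (m0 - 1 / 2) (Or.inl rfl)
  have key := norm_add_le (∑ j ∈ Finset.range n, f ((m0 + j : ℕ) : ℂ) -
      N * (∫ x in (((m0 : ℝ) - 1 / 2) / N)..((m0 + n - 1 / 2) / N), F (x + v * I)) -
      (PT f (N * h) (N * v) (m0 + n - 1 / 2) - PT f (N * h) (N * v) (m0 - 1 / 2)))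
      (PT f (N * h) (N * v) (m0 + n - 1 / 2) - PT f (N * h) (N * v) (m0 - 1 / 2))
  have key2 := norm_sub_le (PT f (N * h) (N * v) (m0 + n - 1 / 2))
    (PT f (N * h) (N * v) (m0 - 1 / 2))
  rw [sub_add_cancel] at key
  linarith

end Pool.Agent.Helper66.TF
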